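import Pool.Agent.Work.MP_707689_an.Main
import Mathlib

-- merged part: Pool.Agent.Work.MP_707689_an.Hy.Phi
section
/-! Integrals along anisotropic curves. -/

open MeasureTheory Set Filter Topology
open scoped ENNReal NNReal InnerProductSpace

namespace Pool.Agent.Work.MP_707689_an

variable {H : Type} [NormedAddCommGroup H] [InnerProductSpace ℂ H] [CompleteSpace H]

/-- the anisotropic curves -/
noncomputable def gam (a s : ℝ) (u : ℝ × ℝ) : ℝ × ℝ :=
  (Real.exp (a * s) * u.1, Real.exp ((1 - a) * s) * u.2)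

theorem gam_cont (a : ℝ) : Continuous fun z : ℝ × ℝ × ℝ => gam a z.1 z.2 := by
  unfold gam
  fun_prop

theorem gam_meas (a s : ℝ) : Measurable (gam a s) := by
  unfold gam
  fun_prop

theorem lint_diag {g : ℝ × ℝ → ℝ≥0∞} (hg : Measurable g) {α β : ℝ} (hα : 0 < α) (hβ : 0 < β) :
    ∫⁻ u : ℝ × ℝ, g (α * u.1, β * u.2) = ENNReal.ofReal (α * β)⁻¹ * ∫⁻ k, g k := by
  have h := Measure.map_prod_map (volume : Measure ℝ) (volume : Measure ℝ)
    (measurable_const_mul α) (measurable_const_mul β)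
  rw [Real.map_volume_mul_left hα.ne', Real.map_volume_mul_left hβ.ne', Measure.prod_smul_left,
    Measure.prod_smul_right, smul_smul, ← Measure.volume_eq_prod] at h
  have h2 := lintegral_map (μ := (volume : Measure (ℝ × ℝ))) hg
    ((measurable_const_mul α).prodMap (measurable_const_mul β))
  rw [← h, lintegral_smul_measure, ← ENNReal.ofReal_mul (abs_nonneg _), abs_of_pos (inv_pos.2 hα),
    abs_of_pos (inv_pos.2 hβ), ← mul_inv, smul_eq_mul] at h2
  exact h2.symm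

theorem gam_le {g : ℝ × ℝ → ℝ≥0∞} (hg : Measurable g) (a s : ℝ) :
    ∫⁻ u in Q, g (gam a s u) ≤ ENNReal.ofReal (Real.exp (-s)) * ∫⁻ k in Hp, g k := by
  have e : Real.exp (-s) = (Real.exp (a * s) * Real.exp ((1 - a) * s))⁻¹ := by
    rw [← Real.exp_add, ← Real.exp_neg]
    congr 1
    ring
  rw [← lintegral_indicator measHp, e,
    ← lint_diag (hg.indicator measHp) (Real.exp_pos _) (Real.exp_pos _),
    ← lintegral_indicator measQ]
  refine lintegral_mono fun u => ?_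
  by_cases hu : u ∈ Q
  · rw [indicator_of_mem hu, indicator_of_mem
      (show (Real.exp (a * s) * u.1, Real.exp ((1 - a) * s) * u.2) ∈ Hp from
        mul_nonneg (Real.exp_pos _).le hu.1.1)]
    rfl
  · simp [hu]

/-- the weighted average over the unit square at time `s` -/
noncomputable def av (a c : ℝ) (g : ℝ × ℝ → ℝ≥0∞) (s : ℝ) : ℝ≥0∞ :=
  ENNReal.ofReal (Real.exp (c * s)) * ∫⁻ u in Q, g (gam a s u)

/-- weighted integral along the curves through the unit square -/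
noncomputable def Psi (a c : ℝ) (g : ℝ × ℝ → ℝ≥0∞) : ℝ≥0∞ := ∫⁻ s, av a c g s

variable {a c : ℝ}

theorem meas_exp (c : ℝ) : Measurable fun s : ℝ => ENNReal.ofReal (Real.exp (c * s)) := by
  fun_prop

theorem av_meas {g : ℝ × ℝ → ℝ≥0∞} (hg : Measurable g) : Measurable (av a c g) :=
  (meas_exp c).fun_mul
    (Measurable.lintegral_prod_right' (f := fun z : ℝ × ℝ × ℝ => g (gam a z.1 z.2))
      (hg.comp (gam_cont a).measurable))

theorem lint_Iic (hc : 0 < c) (T : ℝ) :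
    ∫⁻ s in Iic T, ENNReal.ofReal (Real.exp (c * s)) = ENNReal.ofReal (Real.exp (c * T) / c) := by
  rw [← ofReal_integral_eq_lintegral_ofReal (integrableOn_exp_mul_Iic hc T)
    (Eventually.of_forall fun s => (Real.exp_pos _).le), integral_exp_mul_Iic hc]

theorem Psi_split {g : ℝ × ℝ → ℝ≥0∞} (hg : Measurable g) (hc : c < 1) {d : ℝ≥0∞}
    (hd : ∫⁻ k in Hp, g k ≤ d) (T : ℝ) :
    Psi a c g ≤ (∫⁻ s in Iic T, av a c g s) +
      d * ENNReal.ofReal (Real.exp ((c - 1) * T) / (1 - c)) := by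
  rw [Psi, ← lintegral_add_compl _ (measurableSet_Iic (a := T)), compl_Iic]
  refine add_le_add le_rfl ?_
  have h1 : ∫⁻ s in Ioi T, ENNReal.ofReal (Real.exp ((c - 1) * s)) =
      ENNReal.ofReal (Real.exp ((c - 1) * T) / (1 - c)) := by
    rw [← ofReal_integral_eq_lintegral_ofReal (integrableOn_exp_mul_Ioi (sub_neg.2 hc) T)
      (Eventually.of_forall fun s => (Real.exp_pos _).le), integral_exp_mul_Ioi (sub_neg.2 hc),
      ← neg_sub 1 c, neg_div_neg_eq]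
  rw [← h1, ← lintegral_const_mul _ (meas_exp _)]
  refine lintegral_mono fun s => ?_
  refine (mul_le_mul_right ((gam_le hg a s).trans (mul_le_mul_right hd _)) _).trans (le_of_eq ?_)
  rw [← mul_assoc, ← ENNReal.ofReal_mul (Real.exp_pos _).le, ← Real.exp_add, mul_comm]
  congr 3
  ring

theorem loc_le {g : ℝ × ℝ → ℝ≥0∞} (hc : 0 < c) {C : ℝ≥0∞} (hC : ∀ k, g k ≤ C) (T : ℝ) :
    ∫⁻ s in Iic T, av a c g s ≤ C * ENNReal.ofReal (Real.exp (c * T) / c) := by
  rw [← lint_Iic hc, ← lintegral_const_mul _ (meas_exp _)]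
  refine lintegral_mono fun s => ?_
  rw [mul_comm C]
  exact mul_le_mul_right (sq_le' fun _ => hC _) _

theorem av_mono {g g' : ℝ × ℝ → ℝ≥0∞} (h : ∀ k, g k ≤ g' k) (s : ℝ) :
    av a c g s ≤ av a c g' s :=
  mul_le_mul_right (lintegral_mono fun _ => h _) _

theorem Psi_add {g g₁ g₂ : ℝ × ℝ → ℝ≥0∞} (h₁ : Measurable g₁) (h : ∀ k, g k ≤ g₁ k + g₂ k) :
    Psi a c g ≤ Psi a c g₁ + Psi a c g₂ := by
  rw [Psi, Psi, Psi, ← lintegral_add_left (av_meas h₁)]
  refine lintegral_mono fun s => (av_mono h s).trans (le_of_eq ?_)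
  rw [av, av, av, ← mul_add,
    lintegral_add_left (f := fun u => g₁ (gam a s u)) (h₁.comp (gam_meas a s))]

theorem Psi_tsum {g : ℝ × ℝ → ℝ≥0∞} {G : ℕ → ℝ × ℝ → ℝ≥0∞} (hG : ∀ m, Measurable (G m))
    (h : ∀ k, g k ≤ ∑' m, G m k) : Psi a c g ≤ ∑' m, Psi a c (G m) := by
  simp only [Psi]
  rw [← lintegral_tsum fun m => (av_meas (hG m)).aemeasurable]
  refine lintegral_mono fun s => (av_mono h s).trans (le_of_eq ?_)
  simp only [av]
  rw [ENNReal.tsum_mul_left, lintegral_tsum (f := fun m u => G m (gam a s u))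
    fun m => ((hG m).comp (gam_meas a s)).aemeasurable]

variable {M : ℝ≥0} {v w : ℝ × ℝ → H}

theorem Psi_rank (hc : 0 < c) (hc1 : c < 1) (hv : Frame M v) (hw : Frame M w) {r : ℕ}
    {D : H →L[ℂ] H} (hD : Rk r D) {R : ℝ} (hR : 0 < R) (hr : (r : ℝ) ≤ R) :
    Psi a c (fun k => ‖⟪w k, D (v k)⟫_ℂ‖ₑ) ≤
      M ^ 2 * ENNReal.ofReal ((1 / c + 1 / (1 - c)) * (‖D‖ * R ^ c)) := by
  have h0 : 0 < 1 - c := sub_pos.2 hc1
  refine (Psi_split (meas_pair hv hw D) hc1 (lint_rank hv hw hD) (Real.log R)).trans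
    ((add_le_add (loc_le hc (pair_le hv hw D) _) le_rfl).trans ?_)
  have e1 : Real.exp (c * Real.log R) = R ^ c := by rw [Real.rpow_def_of_pos hR, mul_comm]
  have e2 : Real.exp ((c - 1) * Real.log R) = R ^ c / R := by
    rw [sub_mul, Real.exp_sub, e1, one_mul, Real.exp_log hR]
  have hp : 0 < R ^ c := Real.rpow_pos_of_pos hR c
  have h1 : (r : ℝ≥0∞) * ENNReal.ofReal (R ^ c / R / (1 - c)) ≤
      ENNReal.ofReal (R ^ c / (1 - c)) := by
    rw [← ENNReal.ofReal_natCast, ← ENNReal.ofReal_mul (Nat.cast_nonneg _)]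
    refine ENNReal.ofReal_le_ofReal ((mul_le_mul_of_nonneg_right hr (by positivity)).trans
      (le_of_eq ?_))
    field_simp
  rw [e1, e2, mul_assoc _ (r : ℝ≥0∞)]
  refine (add_le_add le_rfl (mul_le_mul_right h1 _)).trans (le_of_eq ?_)
  rw [← mul_add, ← ENNReal.ofReal_add (by positivity) (by positivity), mul_assoc, ← ofReal_norm,
    ← ENNReal.ofReal_mul (norm_nonneg _)]
  congr 2
  ring

theorem loc_zero {ι : Type} {l : Filter ι} [l.IsCountablyGenerated] (hc : 0 < c)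
    {G : ι → ℝ × ℝ → ℝ≥0∞} (hG : ∀ i, Measurable (G i)) {C : ℝ≥0∞} (hC : C ≠ ∞)
    (hb : ∀ i k, G i k ≤ C) (hz : ∀ k, Tendsto (fun i => G i k) l (𝓝 0)) (T : ℝ) :
    Tendsto (fun i => ∫⁻ s in Iic T, av a c (G i) s) l (𝓝 0) := by
  have h1 : ∀ s, Tendsto (fun i => av a c (G i) s) l (𝓝 0) := fun s => by
    have h2 := tendsto_lintegral_filter_of_dominated_convergence (μ := volume.restrict Q) (l := l)
      (F := fun i u => G i (gam a s u)) (f := fun _ => 0) (fun _ => C)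
      (.of_forall fun i => (hG i).comp (gam_meas a s))
      (.of_forall fun i => .of_forall fun u => hb _ _) (by simpa [volQ] using hC)
      (.of_forall fun u => hz _)
    rw [lintegral_zero] at h2
    simpa [av] using ENNReal.Tendsto.const_mul (a := ENNReal.ofReal (Real.exp (c * s))) h2
      (Or.inr ENNReal.ofReal_ne_top)
  have h3 := tendsto_lintegral_filter_of_dominated_convergence (μ := volume.restrict (Iic T))
    (l := l) (F := fun i s => av a c (G i) s) (f := fun _ => 0) (av a c fun _ => C)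
    (.of_forall fun i => av_meas (hG i))
    (.of_forall fun i => .of_forall fun s => av_mono (hb i) s)
    (ne_top_of_le_ne_top (ENNReal.mul_ne_top hC ENNReal.ofReal_ne_top)
      (loc_le hc (fun _ => le_rfl) T)) (.of_forall h1)
  rwa [lintegral_zero] at h3

omit [CompleteSpace H] in
theorem inner_le_frame (hw : Frame M w) (e : H) (k : ℝ × ℝ) : ‖⟪e, w k⟫_ℂ‖ₑ ≤ ‖e‖ₑ * M := by
  refine le_trans ?_ (mul_le_mul_right (hw.bdd k) _)
  simp only [enorm_eq_nnnorm, ← ENNReal.coe_mul, ENNReal.coe_le_coe]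
  exact nnnorm_inner_le_nnnorm _ _

theorem decay' {ι : Type} {l : Filter ι} [l.IsCountablyGenerated] (hc : 0 < c) (hc1 : c < 1)
    {v : ι → ℝ × ℝ → H} (hv : ∀ i, Frame M (v i))
    (hz : ∀ h k, Tendsto (fun i => ⟪h, v i k⟫_ℂ) l (𝓝 0)) {n : ℕ} (e f : Fin n → H)
    {d ε : ℝ≥0∞} (hd : d ≠ ∞) (hε : 0 < ε) :
    ∀ᶠ i in l, ∀ w : ℝ × ℝ → H, Frame M w → ∀ g : ℝ × ℝ → ℝ≥0∞, Measurable g →
      ∫⁻ k in Hp, g k ≤ d → (∀ k, g k ≤ ∑ j, ‖⟪e j, w k⟫_ℂ‖ₑ * ‖⟪f j, v i k⟫_ℂ‖ₑ) →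
      Psi a c g ≤ ε := by
  have h2 := ENNReal.half_pos hε.ne'
  have t1 : Tendsto (fun T : ℝ => d * ENNReal.ofReal (Real.exp ((c - 1) * T) / (1 - c))) atTop
      (𝓝 0) := by
    have := ENNReal.Tendsto.const_mul (a := d) (ENNReal.tendsto_ofReal
      ((Real.tendsto_exp_atBot.comp (tendsto_id.const_mul_atTop_of_neg (sub_neg.2 hc1))).div_const
        (1 - c))) (Or.inr hd)
    simpa using this
  obtain ⟨T, hT⟩ := (ENNReal.tendsto_nhds_zero.mp t1 _ h2).exists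
  have t2 := loc_zero (a := a) (l := l) hc
    (G := fun i k => ∑ j, ‖e j‖ₑ * M * ‖⟪f j, v i k⟫_ℂ‖ₑ)
    (fun i => Finset.measurable_sum _ fun j _ => ((hv i).meas _).const_mul _)
    (C := ∑ j, ‖e j‖ₑ * M * (‖f j‖ₑ * M)) (ENNReal.sum_ne_top.2 fun j _ => by finiteness)
    (fun i k => Finset.sum_le_sum fun j _ => mul_le_mul_right (inner_le_frame (hv i) _ _) _)
    (fun k => by
      have := tendsto_finsetSum Finset.univ fun j _ => ENNReal.Tendsto.const_mul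
        (a := ‖e j‖ₑ * M) (hz (f j) k).enorm (Or.inr (by finiteness))
      simpa using this) T
  filter_upwards [ENNReal.tendsto_nhds_zero.mp t2 _ h2] with i hi w hw g hg hgd hgs
  refine (Psi_split hg hc1 hgd T).trans ((add_le_add (le_trans (lintegral_mono fun s =>
    av_mono (fun k => (hgs k).trans (Finset.sum_le_sum fun j _ => ?_)) s) hi) hT).trans
    (ENNReal.add_halves ε).le)
  exact mul_le_mul_left (inner_le_frame hw _ _) _

/-- approximation by finite rank operators for the weight `c` -/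
def Apy (a c : ℝ) (K : H →L[ℂ] H) : Prop :=
  ∀ ε : ℝ≥0∞, 0 < ε → ∃ F r, Rk r F ∧ ‖K - F‖ₑ ≤ ε ∧ ∀ (M : ℝ≥0) (v w : ℝ × ℝ → H),
    Frame M v → Frame M w → Psi a c (fun k => ‖⟪w k, (K - F) (v k)⟫_ℂ‖ₑ) ≤ M ^ 2 * ε

theorem Apy.small {ι : Type} {l : Filter ι} [l.IsCountablyGenerated] (hc : 0 < c) (hc1 : c < 1)
    {K : H →L[ℂ] H} (hK : Apy a c K) {v : ι → ℝ × ℝ → H} (hv : ∀ i, Frame M (v i))
    (hz : ∀ h k, Tendsto (fun i => ⟪h, v i k⟫_ℂ) l (𝓝 0)) {ε : ℝ≥0∞} (hε : 0 < ε) :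
    ∀ᶠ i in l, ∀ w : ℝ × ℝ → H, Frame M w →
      Psi a c (fun k => ‖⟪w k, K (v i k)⟫_ℂ‖ₑ) ≤ ε ∧
      Psi a c (fun k => ‖⟪v i k, K (w k)⟫_ℂ‖ₑ) ≤ ε := by
  have h2 := ENNReal.half_pos hε.ne'
  obtain ⟨δ, hδ, hδ'⟩ := ENNReal.exists_nnreal_pos_mul_lt (a := (M : ℝ≥0∞) ^ 2) (by finiteness)
    h2.ne'
  obtain ⟨F, r, hF, -, hΦ⟩ := hK δ (by exact_mod_cast hδ)
  obtain ⟨n, e, f, -, -, -, h⟩ := hF.decomp
  have hd : (M : ℝ≥0∞) ^ 2 * ‖F‖ₑ * r ≠ ∞ := by finiteness
  rw [mul_comm] at hδ'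
  filter_upwards [decay' (a := a) hc hc1 hv hz e f hd h2, decay' (a := a) hc hc1 hv hz f e hd h2]
    with i h3 h4 w hw
  have hs := hv i
  constructor
  · refine (Psi_add (meas_pair hs hw _) fun k => split_pair K F _ _).trans
      ((add_le_add ((hΦ M _ _ hs hw).trans hδ'.le) ?_).trans (ENNReal.add_halves ε).le)
    exact h3 w hw _ (meas_pair hs hw _) (lint_rank hs hw hF) fun k => h _ _
  · refine (Psi_add (meas_pair hw hs _) fun k => split_pair K F _ _).trans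
      ((add_le_add ((hΦ M _ _ hw hs).trans hδ'.le) ?_).trans (ENNReal.add_halves ε).le)
    exact h4 w hw _ (meas_pair hw hs _) (lint_rank hw hs hF) fun k =>
      (h _ _).trans (le_of_eq (by simp only [mul_comm]))

theorem boundary {K : H →L[ℂ] H} (hK : ∀ ε : ℝ≥0∞, 0 < ε → ∃ F r, Rk r F ∧ ‖K - F‖ₑ ≤ ε)
    (hv : Frame M v) (hw : Frame M w) {ε : ℝ≥0∞} (hε : 0 < ε) :
    ∃ s : ℝ, ∫⁻ u in Q, ‖⟪w (gam a s u), K (v (gam a s u))⟫_ℂ‖ₑ ≤ ε := by
  have h2 := ENNReal.half_pos hε.ne'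
  obtain ⟨δ, hδ, hδ'⟩ := ENNReal.exists_nnreal_pos_mul_lt (a := (M : ℝ≥0∞) ^ 2) (by finiteness)
    h2.ne'
  obtain ⟨F, r, hF, hn⟩ := hK δ (by exact_mod_cast hδ)
  obtain ⟨η, hη, hη'⟩ := ENNReal.exists_nnreal_pos_mul_lt
    (a := (M : ℝ≥0∞) ^ 2 * ‖F‖ₑ * r) (by finiteness) h2.ne'
  refine ⟨-Real.log η, (lintegral_mono fun u => split_pair K F _ _).trans ?_⟩
  rw [lintegral_add_left (f := fun u => ‖⟪w (gam a (-Real.log η) u),
    (K - F) (v (gam a (-Real.log η) u))⟫_ℂ‖ₑ) ((meas_pair hv hw _).comp (gam_meas a _))]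
  refine (add_le_add (sq_le' fun u => (pair_le hv hw _ _).trans ?_)
    ((gam_le (meas_pair hv hw F) a _).trans ?_)).trans (ENNReal.add_halves ε).le
  · exact (mul_le_mul_right hn _).trans (by rw [mul_comm]; exact hδ'.le)
  · rw [neg_neg, Real.exp_log (by exact_mod_cast hη), ENNReal.ofReal_coe_nnreal]
    exact (mul_le_mul_right (lint_rank hv hw hF) _).trans hη'.le

end Pool.Agent.Work.MP_707689_an
end

-- merged part: Pool.Agent.Work.MP_707689_an.SDefs
section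
/-! The ideal and the joint spectral measure, as used in the statement. -/

open MeasureTheory Set
open scoped InnerProductSpace

namespace Pool.Agent.Work.MP_707689_an

variable {H : Type} [NormedAddCommGroup H] [InnerProductSpace ℂ H] [CompleteSpace H]

/-- the singular value `s (k + 1)`: the distance to the operators of rank at most `k` -/
noncomputable def sval (T : H →L[ℂ] H) (k : ℕ) : ℝ :=
  sInf {r : ℝ | ∃ F : H →L[ℂ] H,
    Module.rank ℂ (LinearMap.range (F : H →ₗ[ℂ] H)) ≤ (k : Cardinal) ∧ r = ‖T - F‖}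

/-- membership in the Lorentz ideal -/
def InC2 (T : H →L[ℂ] H) : Prop :=
  IsCompactOperator T ∧ Summable fun k : ℕ => sval T k / √((k : ℝ) + 1)

/-- `E` is a projection valued measure on the Borel sets of the plane whose two coordinate
integrals are `A₁` and `A₂` -/
structure IsJointSpec (A₁ A₂ : H →L[ℂ] H) (E : Set (ℝ × ℝ) → H →L[ℂ] H) : Prop where
  sa : ∀ S, MeasurableSet S → IsSelfAdjoint (E S)
  inter : ∀ S T, MeasurableSet S → MeasurableSet T → E (S ∩ T) = E S * E T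
  univ : E univ = 1
  int : ∀ x : H, ∃ μ : Measure (ℝ × ℝ), (∀ S, MeasurableSet S → μ S = ‖E S x‖ₑ ^ 2) ∧
    Integrable Prod.fst μ ∧ Integrable Prod.snd μ ∧
    ⟪x, A₁ x⟫_ℂ = ((∫ p, p.1 ∂μ : ℝ) : ℂ) ∧ ⟪x, A₂ x⟫_ℂ = ((∫ p, p.2 ∂μ : ℝ) : ℂ)

end Pool.Agent.Work.MP_707689_an
end

-- merged part: Pool.Agent.Work.MP_707689_an.Hy.Defs
section
/-! The Lorentz ideals, the joint continuous functional calculus and the absolutely continuous
vectors, as used in the statement. -/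

open MeasureTheory

namespace Pool.Agent.Work.MP_707689_an

variable {H : Type} [NormedAddCommGroup H] [InnerProductSpace ℂ H] [CompleteSpace H]

/-- membership in the Lorentz ideal with exponent `p` -/
def InLor (p : ℝ) (T : H →L[ℂ] H) : Prop :=
  IsCompactOperator T ∧ Summable fun k : ℕ => sval T k * ((k : ℝ) + 1) ^ (1 / p - 1)

/-- the function `f` of the commuting selfadjoint pair `A₁, A₂`, through the continuous functional
calculus of the normal operator `A₁ + i A₂` -/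
noncomputable def fc (f : ℝ × ℝ → ℂ) (A₁ A₂ : H →L[ℂ] H) : H →L[ℂ] H :=
  cfc (fun z : ℂ => f (z.re, z.im)) (A₁ + Complex.I • A₂)

/-- the vector `x` is Lebesgue absolutely continuous for `E` -/
def IsAC (E : Set (ℝ × ℝ) → H →L[ℂ] H) (x : H) : Prop :=
  ∀ S, MeasurableSet S → volume S = 0 → E S x = 0

end Pool.Agent.Work.MP_707689_an
end

-- merged part: Pool.Agent.Work.MP_707689_an.Hy.Approx
section
/-! Dyadic decomposition of an operator of the Lorentz ideal. -/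

open MeasureTheory Set Filter Topology
open scoped ENNReal NNReal InnerProductSpace

namespace Pool.Agent.Work.MP_707689_an

variable {H : Type} [NormedAddCommGroup H] [InnerProductSpace ℂ H] [CompleteSpace H] {a c : ℝ}

theorem apy_of_seq (hc : 0 < c) (hc1 : c < 1) {K : H →L[ℂ] H} (F : ℕ → H →L[ℂ] H) (r r' : ℕ → ℕ)
    (R : ℕ → ℝ) (hF : ∀ m, Rk (r m) (F m)) (hD : ∀ m, Rk (r' m) (F (m + 1) - F m))
    (hR : ∀ m, 1 ≤ R m) (hr : ∀ m, (r' m : ℝ) ≤ R m)
    (hs : Summable fun m => ‖F (m + 1) - F m‖ * R m ^ c)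
    (hl : Tendsto F atTop (𝓝 K)) : Apy a c K := by
  intro ε hε
  have h0 : 0 < 1 - c := sub_pos.2 hc1
  have hT : ∀ m, 1 ≤ R m ^ c := fun m => Real.one_le_rpow (hR m) hc.le
  have h1 := ENNReal.tendsto_ofReal
    (tendsto_sum_nat_add fun m => (1 / c + 1 / (1 - c)) * (‖F (m + 1) - F m‖ * R m ^ c))
  have h2 : Tendsto (fun m => ‖K - F m‖ₑ) atTop (𝓝 0) := by
    simpa using (hl.const_sub K).enorm
  rw [ENNReal.ofReal_zero] at h1
  obtain ⟨n, hn1, hn2⟩ := ((ENNReal.tendsto_nhds_zero.mp h1 ε hε).and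
    (ENNReal.tendsto_nhds_zero.mp h2 ε hε)).exists
  refine ⟨F n, r n, hF n, hn2, fun M v w hv hw => ?_⟩
  have hs' : Summable fun m => ‖F (m + n + 1) - F (m + n)‖ * R (m + n) ^ c :=
    (summable_nat_add_iff (f := fun m => ‖F (m + 1) - F m‖ * R m ^ c) n).mpr hs
  have hsum : HasSum (fun m => F (m + n + 1) - F (m + n)) (K - F n) := by
    rw [hasSum_iff_tendsto_nat_of_summable_norm (hs'.of_nonneg_of_le (fun _ => norm_nonneg _)
      fun m => le_mul_of_one_le_right (norm_nonneg _) (hT _))]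
    have e : ∀ j, ∑ m ∈ Finset.range j, (F (m + n + 1) - F (m + n)) = F (j + n) - F n := by
      intro j
      simpa [add_right_comm] using Finset.sum_range_sub (fun m => F (m + n)) j
    simp only [e]
    exact (hl.comp (tendsto_add_atTop_nat n)).sub_const _
  have h3 : ∀ k, ‖⟪w k, (K - F n) (v k)⟫_ℂ‖ₑ ≤
      ∑' m, ‖⟪w k, (F (m + n + 1) - F (m + n)) (v k)⟫_ℂ‖ₑ := fun k => by
    have := (hsum.mapL ((innerSL ℂ (w k)).comp (ContinuousLinearMap.apply ℂ H (v k)))).tsum_eq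
    exact le_trans (le_of_eq (congrArg _ this.symm)) enorm_tsum_le_tsum_enorm
  refine (Psi_tsum (fun m => meas_pair hv hw _) h3).trans ?_
  refine (ENNReal.tsum_le_tsum fun m => Psi_rank hc hc1 hv hw (hD (m + n))
    (one_pos.trans_le (hR _)) (hr _)).trans ?_
  rw [ENNReal.tsum_mul_left, ← ENNReal.ofReal_tsum_of_nonneg
    (fun m => by have := hT (m + n); positivity) (hs'.mul_left _)]
  gcongr

omit [CompleteSpace H] in
theorem sval_nonneg (K : H →L[ℂ] H) (k : ℕ) : 0 ≤ sval K k :=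
  Real.sInf_nonneg (by
    rintro _ ⟨F, -, rfl⟩
    exact norm_nonneg _)

theorem apy_of_summable (hc : 0 < c) (hc1 : c < 1) {K : H →L[ℂ] H}
    (h : Summable fun k : ℕ => sval K k * ((k : ℝ) + 1) ^ (c - 1)) : Apy a c K := by
  have hne : ∀ k, {r : ℝ | ∃ F : H →L[ℂ] H, Rk k F ∧ r = ‖K - F‖}.Nonempty := fun k =>
    ⟨_, 0, by simp [Rk], rfl⟩
  have hlb : ∀ k, ∀ r ∈ {r : ℝ | ∃ F : H →L[ℂ] H, Rk k F ∧ r = ‖K - F‖}, 0 ≤ r := by
    rintro k _ ⟨F, -, rfl⟩
    exact norm_nonneg _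
  have h0 := sval_nonneg K
  have hanti : Antitone (sval K) := fun k l hkl => csInf_le_csInf ⟨0, hlb l⟩ (hne k)
    fun _ ⟨F, hF, e⟩ => ⟨F, le_trans hF (by exact_mod_cast hkl), e⟩
  have hcd := (summable_condensed_iff_of_nonneg
    (f := fun k : ℕ => sval K k * ((k : ℝ) + 1) ^ (c - 1))
    (fun k => mul_nonneg (h0 k) (by positivity)) (fun k l _ hkl =>
      mul_le_mul (hanti hkl) (Real.rpow_le_rpow_of_nonpos (by positivity)
        (by have : (k : ℝ) ≤ l := by exact_mod_cast hkl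
            linarith) (by linarith)) (by positivity) (h0 k))).mpr h
  have hex : ∀ m : ℕ, ∃ F : H →L[ℂ] H, Rk (2 ^ m) F ∧ ‖K - F‖ ≤ sval K (2 ^ m) + (1 / 4) ^ m := by
    intro m
    obtain ⟨_, ⟨F, hF, rfl⟩, hlt⟩ := exists_lt_of_csInf_lt (hne (2 ^ m))
      (show sval K (2 ^ m) < sval K (2 ^ m) + (1 / 4) ^ m by simp)
    exact ⟨F, hF, hlt.le⟩
  choose F hF hFn using hex
  set R : ℕ → ℝ := fun m => 3 * 2 ^ m with hR
  have hp : ∀ m : ℕ, (1 : ℝ) ≤ 2 ^ m := fun m => one_le_pow₀ one_le_two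
  have hR1 : ∀ m, 1 ≤ R m := fun m => by
    have := hp m
    simp only [hR]
    linarith
  have hT1 : ∀ m, 1 ≤ R m ^ c := fun m => Real.one_le_rpow (hR1 m) hc.le
  have hT3 : ∀ m, R m ^ c ≤ 3 * 2 ^ m := fun m => by
    simpa using Real.rpow_le_rpow_of_exponent_le (hR1 m) hc1.le
  have hT4 : ∀ m, R m ^ c ≤ 3 * (2 ^ m * ((2 : ℝ) ^ m + 1) ^ (c - 1)) := fun m => by
    have h1 : R m ^ (c - 1) ≤ ((2 : ℝ) ^ m + 1) ^ (c - 1) :=
      Real.rpow_le_rpow_of_nonpos (by positivity) (by have := hp m; simp only [hR]; linarith)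
        (by linarith)
    have h2 : R m ^ c = R m * R m ^ (c - 1) := by
      rw [Real.rpow_sub_one (one_pos.trans_le (hR1 m)).ne', mul_div_cancel₀ _
        (one_pos.trans_le (hR1 m)).ne']
    rw [h2, ← mul_assoc]
    exact mul_le_mul_of_nonneg_left h1 (zero_le_one.trans (hR1 m))
  have hb : Summable fun m => (sval K (2 ^ m) + (1 / 4) ^ m) * R m ^ c := by
    simp only [add_mul]
    refine Summable.add ((hcd.mul_left 3).of_nonneg_of_le
      (fun m => mul_nonneg (h0 _) (zero_le_one.trans (hT1 m))) fun m => ?_)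
      ((summable_geometric_two.mul_left 3).of_nonneg_of_le (fun m => by
        have := hT1 m; positivity) fun m => ?_)
    · refine (mul_le_mul_of_nonneg_left (hT4 m) (h0 _)).trans (le_of_eq ?_)
      push_cast
      ring
    · refine (mul_le_mul_of_nonneg_left (hT3 m) (by positivity)).trans (le_of_eq ?_)
      rw [mul_left_comm, ← mul_pow]
      norm_num
  refine apy_of_seq hc hc1 F (fun m => 2 ^ m) (fun m => 2 ^ (m + 1) + 2 ^ m) R hF
    (fun m => (hF _).sub (hF _)) hR1 (fun m => le_of_eq (by simp only [hR]; push_cast; ring))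
    ((hb.mul_left 2).of_nonneg_of_le
      (fun m => mul_nonneg (norm_nonneg _) (zero_le_one.trans (hT1 m))) fun m => ?_) ?_
  · rw [← mul_assoc]
    refine mul_le_mul_of_nonneg_right ?_ (zero_le_one.trans (hT1 m))
    have h1 : sval K (2 ^ (m + 1)) ≤ sval K (2 ^ m) :=
      hanti (Nat.pow_le_pow_right two_pos m.le_succ)
    have h2 : (1 / 4 : ℝ) ^ (m + 1) ≤ (1 / 4) ^ m :=
      pow_le_pow_of_le_one (by norm_num) (by norm_num) m.le_succ
    have h3 := norm_sub_le (K - F m) (K - F (m + 1))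
    rw [sub_sub_sub_cancel_left] at h3
    linarith [hFn m, hFn (m + 1)]
  · rw [tendsto_iff_norm_sub_tendsto_zero]
    refine squeeze_zero (fun _ => norm_nonneg _) (fun m => ?_) hb.tendsto_atTop_zero
    rw [norm_sub_rev]
    exact (hFn m).trans (le_mul_of_one_le_right (by have := h0 (2 ^ m); positivity) (hT1 m))

theorem InLor.apy (hc : 0 < c) (hc1 : c < 1) {p : ℝ} (hp : c ≤ 1 / p) {K : H →L[ℂ] H}
    (h : InLor p K) : Apy a c K :=
  apy_of_summable hc hc1 (h.2.of_nonneg_of_le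
    (fun k => mul_nonneg (sval_nonneg K k) (by positivity)) fun k =>
      mul_le_mul_of_nonneg_left (Real.rpow_le_rpow_of_exponent_le
        (by have : (0 : ℝ) ≤ k := k.cast_nonneg
            linarith) (by linarith)) (sval_nonneg K k))

end Pool.Agent.Work.MP_707689_an
end

-- merged part: Pool.Agent.Work.MP_707689_an.Hy.Key
section
/-! The basic estimate along the anisotropic curves. -/

open MeasureTheory Set Filter Topology Complex
open scoped ENNReal NNReal InnerProductSpace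

namespace Pool.Agent.Work.MP_707689_an

variable {H : Type} [NormedAddCommGroup H] [InnerProductSpace ℂ H] [CompleteSpace H] {a : ℝ}

/-- the family `v` solves the evolution equation along the curves -/
def Flow (a : ℝ) (A₁ A₂ : H →L[ℂ] H) (v : ℝ × ℝ → H) : Prop :=
  ∀ (u : ℝ × ℝ) (s : ℝ), HasDerivAt (fun s : ℝ => v (gam a s u))
    (I • (((a * (gam a s u).1 : ℝ) : ℂ) • A₁ (v (gam a s u)) +
      (((1 - a) * (gam a s u).2 : ℝ) : ℂ) • A₂ (v (gam a s u)))) s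

theorem gam_bot (ha : 0 < a) (ha1 : a < 1) (u : ℝ × ℝ) :
    Tendsto (fun s => gam a s u) atBot (𝓝 0) := by
  have h : ∀ {c : ℝ}, 0 < c → ∀ y : ℝ, Tendsto (fun s => Real.exp (c * s) * y) atBot (𝓝 0) :=
    fun {c} hc y => by
      simpa using (Real.tendsto_exp_atBot.comp (tendsto_id.const_mul_atBot hc)).mul_const y
  exact (h ha u.1).prodMk_nhds (h (sub_pos.2 ha1) u.2)

theorem wt_le {c e y : ℝ} (hc : 0 < c) (hc1 : c ≤ 1) (he : 0 < e) (hy : y ∈ Icc (0 : ℝ) 1)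
    (p q : ℂ) : ‖((c * (e * y) : ℝ) : ℂ) * (p - q)‖ₑ ≤ ENNReal.ofReal e * (‖p‖ₑ + ‖q‖ₑ) := by
  rw [enorm_mul]
  refine mul_le_mul' ?_ enorm_sub_le
  have h0 : 0 ≤ e * y := mul_nonneg he.le hy.1
  rw [← ofReal_norm, norm_real, Real.norm_of_nonneg (mul_nonneg hc.le h0)]
  exact ENNReal.ofReal_le_ofReal ((mul_le_of_le_one_left h0 hc1).trans
    (mul_le_of_le_one_right he.le hy.2))

theorem key' (ha : 0 < a) (ha1 : a < 1) {A₁ A₂ B₁ B₂ U V : H →L[ℂ] H} (hA₁ : IsSelfAdjoint A₁)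
    (hA₂ : IsSelfAdjoint A₂) (c₁ : Commute B₁ U) (c₂ : Commute B₂ U)
    (hK : ∀ ε : ℝ≥0∞, 0 < ε → ∃ F r, Rk r F ∧ ‖U - V - F‖ₑ ≤ ε) {M : ℝ≥0} {v w : ℝ × ℝ → H}
    (hv : Frame M v) (hw : Frame M w) (dv : Flow a A₁ A₂ v) (dw : Flow a A₁ A₂ w) {c₀ : ℂ}
    (hn : ∀ k, ⟪w k, V (v k)⟫_ℂ = c₀) :
    ‖⟪w 0, U (v 0)⟫_ℂ - c₀‖ₑ ≤
      Psi a a (fun k => ‖⟪ContinuousLinearMap.adjoint U (w k), (A₁ - B₁) (v k)⟫_ℂ‖ₑ) +
      Psi a a (fun k => ‖⟪w k, (A₁ - B₁) (U (v k))⟫_ℂ‖ₑ) +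
      (Psi a (1 - a) (fun k => ‖⟪ContinuousLinearMap.adjoint U (w k), (A₂ - B₂) (v k)⟫_ℂ‖ₑ) +
      Psi a (1 - a) (fun k => ‖⟪w k, (A₂ - B₂) (U (v k))⟫_ℂ‖ₑ)) := by
  set α : (H →L[ℂ] H) → ℝ × ℝ → ℂ := fun K k =>
    ⟪ContinuousLinearMap.adjoint U (w k), K (v k)⟫_ℂ with hα
  set β : (H →L[ℂ] H) → ℝ × ℝ → ℂ := fun K k => ⟪w k, K (U (v k))⟫_ℂ with hβ
  have cv := hv.cont
  have cw := hw.cont
  have ca : ∀ K, Continuous (α K) := fun K => by rw [hα]; fun_prop
  have cb : ∀ K, Continuous (β K) := fun K => by rw [hβ]; fun_prop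
  set g : (H →L[ℂ] H) → ℝ × ℝ → ℝ≥0∞ := fun K k => ‖α K k‖ₑ + ‖β K k‖ₑ with hg
  have mg : ∀ K, Measurable (g K) := fun K => (ca _).measurable.enorm.add (cb _).measurable.enorm
  set G : ℝ → ℝ × ℝ → ℝ≥0∞ := fun x u =>
    ENNReal.ofReal (Real.exp (a * x)) * g (A₁ - B₁) (gam a x u) +
      ENNReal.ofReal (Real.exp ((1 - a) * x)) * g (A₂ - B₂) (gam a x u) with hG
  have m1 : ∀ c K, Measurable fun z : ℝ × ℝ × ℝ =>
      ENNReal.ofReal (Real.exp (c * z.1)) * g K (gam a z.1 z.2) := fun c K =>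
    ((meas_exp c).comp measurable_fst).fun_mul ((mg K).comp (gam_cont a).measurable)
  have mG : Measurable fun z : ℝ × ℝ × ℝ => G z.1 z.2 := (m1 _ _).add (m1 _ _)
  set ψ : ℝ × ℝ → ℂ := fun k => ⟪w k, U (v k)⟫_ℂ with hψ
  have cψ : Continuous ψ := by rw [hψ]; fun_prop
  have swap : ∀ {A B : H →L[ℂ] H}, IsSelfAdjoint A → Commute B U → ∀ x y : H,
      ⟪x, U (A y)⟫_ℂ - ⟪A x, U y⟫_ℂ =
      ⟪ContinuousLinearMap.adjoint U x, (A - B) y⟫_ℂ - ⟪x, (A - B) (U y)⟫_ℂ := by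
    intro A B hA hc x y
    have e : B (U y) = U (B y) := congrArg (fun T : H →L[ℂ] H => T y) hc.eq
    simp only [ContinuousLinearMap.adjoint_inner_left, sa_inner hA, sub_apply,
      inner_sub_right, e]
    ring
  have ray : ∀ u ∈ Q, ∀ s : ℝ, ‖ψ (gam a s u) - ψ 0‖ₑ ≤ ∫⁻ x, G x u := by
    intro u hu s
    have cg : Continuous fun x : ℝ => gam a x u := (gam_cont a).comp (Continuous.prodMk_left u)
    refine le_of_tendsto' (((cψ.tendsto 0).comp (gam_bot ha ha1 u)).const_sub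
      (ψ (gam a s u))).enorm fun t => ?_
    have h1 := ftc_le (f := fun x : ℝ => ψ (gam a x u)) (f' := fun x : ℝ =>
      I * (((a * (gam a x u).1 : ℝ) : ℂ) * (α (A₁ - B₁) (gam a x u) - β (A₁ - B₁) (gam a x u)) +
        (((1 - a) * (gam a x u).2 : ℝ) : ℂ) *
          (α (A₂ - B₂) (gam a x u) - β (A₂ - B₂) (gam a x u)))) (fun x => ?_)
      (by have := ca (A₁ - B₁); have := cb (A₁ - B₁); have := ca (A₂ - B₂); have := cb (A₂ - B₂)
          fun_prop) t s
    · refine h1.trans ((setLIntegral_le_lintegral _ _).trans (lintegral_mono fun x => ?_))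
      rw [enorm_mul, ← ofReal_norm I, norm_I, ENNReal.ofReal_one, one_mul]
      exact (enorm_add_le _ _).trans (add_le_add (wt_le ha ha1.le (Real.exp_pos _) hu.1 _ _)
        (wt_le (sub_pos.2 ha1) (sub_le_self _ ha.le) (Real.exp_pos _) hu.2 _ _))
    · have h3 := (dw u x).inner ℂ ((U.restrictScalars ℝ).hasFDerivAt.comp_hasDerivAt x (dv u x))
      refine HasDerivAt.congr_deriv h3 ?_
      simp only [hα, hβ, ← swap hA₁ c₁, ← swap hA₂ c₂, Function.comp,
        ContinuousLinearMap.coe_restrictScalars', map_smul, map_add, inner_smul_left,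
        inner_smul_right, inner_add_left, inner_add_right, conj_I, conj_ofReal]
      ring
  refine le_trans (b := Psi a a (g (A₁ - B₁)) + Psi a (1 - a) (g (A₂ - B₂))) ?_
    (add_le_add (Psi_add (ca _).measurable.enorm fun k => le_rfl)
      (Psi_add (ca _).measurable.enorm fun k => le_rfl))
  refine ENNReal.le_of_forall_pos_le_add fun δ hδ _ => ?_
  obtain ⟨s, hs⟩ := boundary (a := a) hK hv hw (ε := δ) (by exact_mod_cast hδ)
  calc _ = ∫⁻ _ in Q, ‖ψ 0 - c₀‖ₑ := by simp [volQ, hψ]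
    _ ≤ ∫⁻ u in Q, (‖⟪w (gam a s u), (U - V) (v (gam a s u))⟫_ℂ‖ₑ + ∫⁻ x, G x u) := by
        refine setLIntegral_mono' measQ fun u hu => le_trans ?_ (add_le_add le_rfl (ray u hu s))
        rw [sub_apply, inner_sub_right, hn, enorm_sub_rev (ψ (gam a s u)) (ψ 0), add_comm]
        exact le_trans (le_of_eq (by rw [sub_add_sub_cancel])) (enorm_add_le _ _)
    _ = (∫⁻ u in Q, ‖⟪w (gam a s u), (U - V) (v (gam a s u))⟫_ℂ‖ₑ) + ∫⁻ x, ∫⁻ u in Q, G x u := by
        rw [lintegral_add_left (f := fun u => ‖⟪w (gam a s u), (U - V) (v (gam a s u))⟫_ℂ‖ₑ)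
          ((meas_pair hv hw _).comp (gam_meas a s)),
          lintegral_lintegral_swap (f := G) mG.aemeasurable]
    _ ≤ _ := by
        rw [add_comm]
        refine add_le_add (le_of_eq ?_) hs
        rw [Psi, Psi, ← lintegral_add_left (av_meas (mg _))]
        refine lintegral_congr fun x => ?_
        rw [av, av, ← lintegral_const_mul (f := fun u => g (A₁ - B₁) (gam a x u)) _
          ((mg _).comp (gam_meas a x)), ← lintegral_const_mul
          (f := fun u => g (A₂ - B₂) (gam a x u)) _ ((mg _).comp (gam_meas a x)),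
          ← lintegral_add_left (f := fun u => ENNReal.ofReal (Real.exp (a * x)) *
            g (A₁ - B₁) (gam a x u)) (((mg _).comp (gam_meas a x)).const_mul _)]

theorem flow_ex {A₁ A₂ : H →L[ℂ] H} (hA : Commute A₁ A₂) (ξ : H) :
    Flow a A₁ A₂ fun k => (ex A₁ k.1 * ex A₂ k.2) ξ := by
  intro u s
  have d : ∀ (A : H →L[ℂ] H) (b y : ℝ), HasDerivAt (fun s : ℝ => ex A (Real.exp (b * s) * y))
      ((b * (Real.exp (b * s) * y)) • ((I • A) * ex A (Real.exp (b * s) * y))) s := fun A b y =>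
    HasDerivAt.scomp (g₁ := ex A) (h := fun s : ℝ => Real.exp (b * s) * y) s (ex_deriv _)
      (((hasDerivAt_const_mul b).exp.mul_const y).congr_deriv (by ring))
  refine HasDerivAt.congr_deriv (deriv_app ((d A₁ a u.1).mul (d A₂ (1 - a) u.2)) ξ) ?_
  have e := congrArg (fun T : H →L[ℂ] H => T (ex A₂ (Real.exp ((1 - a) * s) * u.2) ξ))
    (ex_comm hA.symm (Real.exp (a * s) * u.1)).eq
  simp only [mul_apply_eq_comp] at e
  simp only [gam, add_apply, mul_apply_eq_comp,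
    smul_apply, map_smul, e, smul_add, ← coe_smul]
  rw [smul_comm I, smul_comm I]

end Pool.Agent.Work.MP_707689_an
end

-- merged part: Pool.Agent.Work.MP_707689_an.Hy.Cpt
section
/-! Norm limits of finite rank operators. -/

open MeasureTheory Set Filter Topology Complex
open scoped ENNReal NNReal InnerProductSpace

namespace Pool.Agent.Work.MP_707689_an

variable {H : Type} [NormedAddCommGroup H] [InnerProductSpace ℂ H] [CompleteSpace H]

omit [CompleteSpace H] in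
theorem Rk.left {r : ℕ} {F : H →L[ℂ] H} (h : Rk r F) (S : H →L[ℂ] H) : Rk r (S * F) :=
  (LinearMap.rank_comp_le_right (F : H →ₗ[ℂ] H) (S : H →ₗ[ℂ] H)).trans h

omit [CompleteSpace H] in
theorem Rk.right {r : ℕ} {F : H →L[ℂ] H} (h : Rk r F) (S : H →L[ℂ] H) : Rk r (F * S) :=
  (LinearMap.rank_comp_le_left (S : H →ₗ[ℂ] H) (F : H →ₗ[ℂ] H)).trans h

variable (H) in
/-- the operators of finite rank -/
noncomputable def finRk : Submodule ℂ (H →L[ℂ] H) where
  carrier := {F | ∃ r, Rk r F}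
  zero_mem' := ⟨0, by simp [Rk]⟩
  add_mem' := fun ⟨r, hF⟩ ⟨r', hG⟩ => ⟨r + r', by simpa using hF.sub (hG.left (-1))⟩
  smul_mem' := fun c _ ⟨r, hF⟩ => ⟨r, by simpa using hF.left (c • 1)⟩

variable (H) in
/-- the norm limits of operators of finite rank -/
noncomputable def cpt : Submodule ℂ (H →L[ℂ] H) := (finRk H).topologicalClosure

variable {K X Y : H →L[ℂ] H}

theorem cpt_closed : IsClosed (cpt H : Set (H →L[ℂ] H)) :=
  Submodule.isClosed_topologicalClosure _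

theorem cpt_left (h : K ∈ cpt H) (S : H →L[ℂ] H) : S * K ∈ cpt H :=
  map_mem_closure (f := fun T => S * T) (continuous_const_mul S) h
    fun _ ⟨r, hF⟩ => ⟨r, hF.left S⟩

theorem cpt_right (h : K ∈ cpt H) (S : H →L[ℂ] H) : K * S ∈ cpt H :=
  map_mem_closure (f := fun T => T * S) (continuous_mul_const S) h
    fun _ ⟨r, hF⟩ => ⟨r, hF.right S⟩

theorem cpt_apx (h : K ∈ cpt H) (ε : ℝ≥0∞) (hε : 0 < ε) : ∃ F r, Rk r F ∧ ‖K - F‖ₑ ≤ ε := by
  obtain ⟨F, ⟨r, hF⟩, h1⟩ := EMetric.mem_closure_iff.1 h ε hε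
  exact ⟨F, r, hF, by rw [← edist_eq_enorm_sub]; exact h1.le⟩

theorem Apy.cpt {a c : ℝ} (h : Apy a c K) : K ∈ cpt H := by
  refine EMetric.mem_closure_iff.2 fun ε hε => ?_
  obtain ⟨δ, h0, h1⟩ := exists_between hε
  obtain ⟨F, r, hF, h2, -⟩ := h δ h0
  exact ⟨F, ⟨r, hF⟩, by rw [edist_eq_enorm_sub]; exact h2.trans_lt h1⟩

theorem cpt_mul {X' Y' : H →L[ℂ] H} (h : X - Y ∈ cpt H) (h' : X' - Y' ∈ cpt H) :
    X * X' - Y * Y' ∈ cpt H := by
  have e : X * X' - Y * Y' = (X - Y) * X' + Y * (X' - Y') := by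
    rw [sub_mul, mul_sub, sub_add_sub_cancel]
  rw [e]
  exact add_mem (cpt_right h _) (cpt_left h' _)

theorem cpt_pow (h : X - Y ∈ cpt H) (n : ℕ) : X ^ n - Y ^ n ∈ cpt H := by
  induction n with
  | zero => simp
  | succ n ih =>
    rw [pow_succ, pow_succ]
    exact cpt_mul ih h

theorem cpt_ex (h : X - Y ∈ cpt H) (t : ℝ) : ex X t - ex Y t ∈ cpt H := by
  have h1 := ((NormedSpace.exp_series_hasSum_exp' (𝕂 := ℂ) ((I * (t : ℂ)) • X)).sub
    (NormedSpace.exp_series_hasSum_exp' (𝕂 := ℂ) ((I * (t : ℂ)) • Y))).tendsto_sum_nat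
  refine cpt_closed.mem_of_tendsto h1 (.of_forall fun n => Submodule.sum_mem _ fun m _ => ?_)
  rw [← smul_sub]
  refine Submodule.smul_mem _ _ (cpt_pow ?_ m)
  rw [← smul_sub]
  exact Submodule.smul_mem _ _ h

theorem cpt_strong {ι : Type} {l : Filter ι} (hK : K ∈ cpt H) {u : ι → H} {c : ℝ} (hc0 : 0 ≤ c)
    (hc : ∀ t, ‖u t‖ = c) (hu : ∀ f, Tendsto (fun t => ⟪f, u t⟫_ℂ) l (𝓝 0)) :
    Tendsto (fun t => K (u t)) l (𝓝 0) := by
  rw [NormedAddGroup.tendsto_nhds_zero]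
  intro ε hε
  obtain ⟨F, r, hF, h1⟩ := cpt_apx hK (ENNReal.ofReal (ε / (2 * (c + 1))))
    (ENNReal.ofReal_pos.2 (by positivity))
  rw [← ofReal_norm, ENNReal.ofReal_le_ofReal_iff (by positivity),
    le_div_iff₀ (by positivity)] at h1
  obtain ⟨n, e, f, -, he, -, hd⟩ := hF.decomp
  have h2 : ∀ y, ‖F y‖ ≤ ∑ i, ‖⟪f i, y⟫_ℂ‖ := fun y => by
    have h3 : ‖⟪F y, F y⟫_ℂ‖ₑ ≤ ∑ i, ‖F y‖ₑ * ‖⟪f i, y⟫_ℂ‖ₑ :=
      (hd _ _).trans (Finset.sum_le_sum fun i _ => mul_le_mul'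
        (enorm_le_iff_norm_le.2 ((norm_inner_le_norm _ _).trans (mul_le_of_le_one_left
          (norm_nonneg _) (by simpa [← ofReal_norm] using he i)))) le_rfl)
    simp only [enorm_eq_nnnorm, ← ENNReal.coe_mul, ← ENNReal.ofNNReal_finsetSum, ENNReal.coe_le_coe,
      ← NNReal.coe_le_coe, NNReal.coe_sum, NNReal.coe_mul, coe_nnnorm, ← Finset.mul_sum] at h3
    rw [inner_self_eq_norm_sq_to_K, norm_pow, RCLike.norm_ofReal, abs_norm, sq] at h3
    rcases (norm_nonneg (F y)).eq_or_lt with h | h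
    · rw [← h]
      positivity
    · exact le_of_mul_le_mul_left h3 h
  have h4 := tendsto_finsetSum Finset.univ fun i _ => (hu (f i)).norm
  simp only [norm_zero, Finset.sum_const_zero] at h4
  filter_upwards [h4.eventually (gt_mem_nhds (half_pos hε))] with t ht
  have h5 : K (u t) = (K - F) (u t) + F (u t) := by simp
  have h6 := (K - F).le_opNorm (u t)
  have h7 := norm_add_le ((K - F) (u t)) (F (u t))
  rw [hc] at h6
  rw [h5]
  nlinarith [h2 (u t), norm_nonneg (K - F)]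

end Pool.Agent.Work.MP_707689_an
end

-- merged part: Pool.Agent.Work.MP_707689_an.N.Frame
section
/-! Frames indexed by `n`-space and integrals along anisotropic curves. -/

open MeasureTheory Set Filter Topology
open scoped ENNReal NNReal InnerProductSpace

namespace Pool.Agent.Work.MP_707689_an.N

variable {H : Type} [NormedAddCommGroup H] [InnerProductSpace ℂ H] [CompleteSpace H] {n : ℕ}

/-- bounded continuous Bessel family indexed by `n`-space -/
structure Frame (M : ℝ≥0) (v : (Fin n → ℝ) → H) : Prop where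
  cont : Continuous v
  bdd : ∀ k, ‖v k‖ₑ ≤ M
  bessel : ∀ h : H, ∫⁻ k, ‖⟪h, v k⟫_ℂ‖ₑ ^ 2 ≤ (M * ‖h‖ₑ) ^ 2

variable {M : ℝ≥0} {v w : (Fin n → ℝ) → H}

theorem Frame.map (hv : Frame M v) {U : H →L[ℂ] H} (hU : ‖U‖ ≤ 1) : Frame M fun k => U (v k) :=
  ⟨U.continuous.comp hv.cont, fun k => (enorm_app hU _).trans (hv.bdd k), fun h => by
    simp only [← ContinuousLinearMap.adjoint_inner_left]
    refine (hv.bessel _).trans ?_
    gcongr
    exact enorm_app (by simpa using hU) h⟩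

theorem meas_pair (hv : Frame M v) (hw : Frame M w) (D : H →L[ℂ] H) :
    Measurable fun k => ‖⟪w k, D (v k)⟫_ℂ‖ₑ :=
  (hw.cont.inner (D.continuous.comp hv.cont)).measurable.enorm

theorem pair_le (hv : Frame M v) (hw : Frame M w) (D : H →L[ℂ] H) (k : Fin n → ℝ) :
    ‖⟪w k, D (v k)⟫_ℂ‖ₑ ≤ M ^ 2 * ‖D‖ₑ := by
  have h1 : ‖⟪w k, D (v k)⟫_ℂ‖ₑ ≤ ‖w k‖ₑ * (‖D‖ₑ * ‖v k‖ₑ) := by
    simp only [enorm_eq_nnnorm, ← ENNReal.coe_mul, ENNReal.coe_le_coe]
    exact (nnnorm_inner_le_nnnorm _ _).trans (by gcongr; exact D.le_opNNNorm _)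
  refine h1.trans ((mul_le_mul' (hw.bdd k) (mul_le_mul_right (hv.bdd k) _)).trans (le_of_eq ?_))
  ring

variable (n) in
/-- the unit cube -/
def Q : Set (Fin n → ℝ) := Icc 0 1

theorem measQ : MeasurableSet (Q n) := measurableSet_Icc

theorem volQ : volume (Q n) = 1 := by
  simp [Q, Real.volume_Icc_pi]

theorem sq_le' {g : (Fin n → ℝ) → ℝ≥0∞} {c : ℝ≥0∞} (hc : ∀ k, g k ≤ c) : ∫⁻ u in Q n, g u ≤ c :=
  (lintegral_mono hc).trans (by simp [volQ])

theorem Frame.meas (hv : Frame M v) (h : H) : Measurable fun k => ‖⟪h, v k⟫_ℂ‖ₑ :=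
  (continuous_const.inner hv.cont).measurable.enorm

theorem lint_rank (hv : Frame M v) (hw : Frame M w) {r : ℕ} {D : H →L[ℂ] H} (hD : Rk r D) :
    ∫⁻ k, ‖⟪w k, D (v k)⟫_ℂ‖ₑ ≤ M ^ 2 * ‖D‖ₑ * r := by
  obtain ⟨m, e, f, hn, he, hf, h⟩ := hD.decomp
  refine (lintegral_mono fun k => h _ _).trans ?_
  rw [lintegral_finsetSum _ fun i _ => (hw.meas _).fun_mul (hv.meas _)]
  refine (Finset.sum_le_sum (g := fun _ => (M : ℝ≥0∞) ^ 2 * ‖D‖ₑ) fun i _ => ?_).trans ?_
  · refine (cs (hw.meas _) (hv.meas _) (hw.bessel _) (hv.bessel _)).trans ?_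
    refine (mul_le_mul' (mul_le_mul_right (he i) _) (mul_le_mul_right (hf i) _)).trans
      (le_of_eq ?_)
    ring
  · rw [Finset.sum_const, Finset.card_univ, Fintype.card_fin, nsmul_eq_mul, mul_comm]
    gcongr

/-- the anisotropic curves -/
noncomputable def gam (a : Fin n → ℝ) (s : ℝ) (u : Fin n → ℝ) : Fin n → ℝ :=
  fun j => Real.exp (a j * s) * u j

theorem gam_cont (a : Fin n → ℝ) : Continuous fun z : ℝ × (Fin n → ℝ) => gam a z.1 z.2 := by
  unfold gam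
  fun_prop

theorem gam_meas (a : Fin n → ℝ) (s : ℝ) : Measurable (gam a s) := by
  unfold gam
  fun_prop

theorem gam_le {g : (Fin n → ℝ) → ℝ≥0∞} (hg : Measurable g) {a : Fin n → ℝ} (ha : ∑ j, a j = 1)
    (s : ℝ) : ∫⁻ u in Q n, g (gam a s u) ≤ ENNReal.ofReal (Real.exp (-s)) * ∫⁻ k, g k := by
  have hd : (Matrix.diagonal fun j => Real.exp (a j * s)).det = Real.exp s := by
    rw [Matrix.det_diagonal, ← Real.exp_sum, ← Finset.sum_mul, ha, one_mul]
  have h := Real.map_matrix_volume_pi_eq_smul_volume_pi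
    (M := Matrix.diagonal fun j => Real.exp (a j * s)) (by rw [hd]; positivity)
  have e : ⇑(Matrix.toLin' (Matrix.diagonal fun j => Real.exp (a j * s))) = gam a s := by
    funext u j
    simp [Matrix.toLin'_apply, Matrix.mulVec_diagonal, gam]
  rw [e, hd, ← Real.exp_neg, abs_of_pos (Real.exp_pos _)] at h
  refine (setLIntegral_le_lintegral _ _).trans (le_of_eq ?_)
  rw [← lintegral_map hg (gam_meas a s), h, lintegral_smul_measure, smul_eq_mul]

/-- the weighted average over the unit cube at time `s` -/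
noncomputable def av (a : Fin n → ℝ) (c : ℝ) (g : (Fin n → ℝ) → ℝ≥0∞) (s : ℝ) : ℝ≥0∞ :=
  ENNReal.ofReal (Real.exp (c * s)) * ∫⁻ u in Q n, g (gam a s u)

/-- weighted integral along the curves through the unit cube -/
noncomputable def Psi (a : Fin n → ℝ) (c : ℝ) (g : (Fin n → ℝ) → ℝ≥0∞) : ℝ≥0∞ := ∫⁻ s, av a c g s

variable {a : Fin n → ℝ} {c : ℝ}

theorem av_meas {g : (Fin n → ℝ) → ℝ≥0∞} (hg : Measurable g) : Measurable (av a c g) :=
  (meas_exp c).fun_mul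
    (Measurable.lintegral_prod_right' (f := fun z : ℝ × (Fin n → ℝ) => g (gam a z.1 z.2))
      (hg.comp (gam_cont a).measurable))

theorem Psi_split (ha : ∑ j, a j = 1) {g : (Fin n → ℝ) → ℝ≥0∞} (hg : Measurable g) (hc : c < 1) {d : ℝ≥0∞}
    (hd : ∫⁻ k, g k ≤ d) (T : ℝ) :
    Psi a c g ≤ (∫⁻ s in Iic T, av a c g s) +
      d * ENNReal.ofReal (Real.exp ((c - 1) * T) / (1 - c)) := by
  rw [Psi, ← lintegral_add_compl _ (measurableSet_Iic (a := T)), compl_Iic]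
  refine add_le_add le_rfl ?_
  have h1 : ∫⁻ s in Ioi T, ENNReal.ofReal (Real.exp ((c - 1) * s)) =
      ENNReal.ofReal (Real.exp ((c - 1) * T) / (1 - c)) := by
    rw [← ofReal_integral_eq_lintegral_ofReal (integrableOn_exp_mul_Ioi (sub_neg.2 hc) T)
      (Eventually.of_forall fun s => (Real.exp_pos _).le), integral_exp_mul_Ioi (sub_neg.2 hc),
      ← neg_sub 1 c, neg_div_neg_eq]
  rw [← h1, ← lintegral_const_mul _ (meas_exp _)]
  refine lintegral_mono fun s => ?_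
  refine (mul_le_mul_right ((gam_le hg ha s).trans (mul_le_mul_right hd _)) _).trans (le_of_eq ?_)
  rw [← mul_assoc, ← ENNReal.ofReal_mul (Real.exp_pos _).le, ← Real.exp_add, mul_comm]
  congr 3
  ring

theorem loc_le {g : (Fin n → ℝ) → ℝ≥0∞} (hc : 0 < c) {C : ℝ≥0∞} (hC : ∀ k, g k ≤ C) (T : ℝ) :
    ∫⁻ s in Iic T, av a c g s ≤ C * ENNReal.ofReal (Real.exp (c * T) / c) := by
  rw [← lint_Iic hc, ← lintegral_const_mul _ (meas_exp _)]
  refine lintegral_mono fun s => ?_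
  rw [mul_comm C]
  exact mul_le_mul_right (sq_le' fun _ => hC _) _

theorem av_mono {g g' : (Fin n → ℝ) → ℝ≥0∞} (h : ∀ k, g k ≤ g' k) (s : ℝ) :
    av a c g s ≤ av a c g' s :=
  mul_le_mul_right (lintegral_mono fun _ => h _) _

theorem Psi_add {g g₁ g₂ : (Fin n → ℝ) → ℝ≥0∞} (h₁ : Measurable g₁) (h : ∀ k, g k ≤ g₁ k + g₂ k) :
    Psi a c g ≤ Psi a c g₁ + Psi a c g₂ := by
  rw [Psi, Psi, Psi, ← lintegral_add_left (av_meas h₁)]
  refine lintegral_mono fun s => (av_mono h s).trans (le_of_eq ?_)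
  rw [av, av, av, ← mul_add,
    lintegral_add_left (f := fun u => g₁ (gam a s u)) (h₁.comp (gam_meas a s))]

theorem Psi_tsum {g : (Fin n → ℝ) → ℝ≥0∞} {G : ℕ → (Fin n → ℝ) → ℝ≥0∞} (hG : ∀ m, Measurable (G m))
    (h : ∀ k, g k ≤ ∑' m, G m k) : Psi a c g ≤ ∑' m, Psi a c (G m) := by
  simp only [Psi]
  rw [← lintegral_tsum fun m => (av_meas (hG m)).aemeasurable]
  refine lintegral_mono fun s => (av_mono h s).trans (le_of_eq ?_)
  simp only [av]
  rw [ENNReal.tsum_mul_left, lintegral_tsum (f := fun m u => G m (gam a s u))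
    fun m => ((hG m).comp (gam_meas a s)).aemeasurable]

theorem Psi_rank (ha : ∑ j, a j = 1) (hc : 0 < c) (hc1 : c < 1) (hv : Frame M v) (hw : Frame M w) {r : ℕ}
    {D : H →L[ℂ] H} (hD : Rk r D) {R : ℝ} (hR : 0 < R) (hr : (r : ℝ) ≤ R) :
    Psi a c (fun k => ‖⟪w k, D (v k)⟫_ℂ‖ₑ) ≤
      M ^ 2 * ENNReal.ofReal ((1 / c + 1 / (1 - c)) * (‖D‖ * R ^ c)) := by
  have h0 : 0 < 1 - c := sub_pos.2 hc1
  refine (Psi_split ha (meas_pair hv hw D) hc1 (lint_rank hv hw hD) (Real.log R)).trans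
    ((add_le_add (loc_le hc (pair_le hv hw D) _) le_rfl).trans ?_)
  have e1 : Real.exp (c * Real.log R) = R ^ c := by rw [Real.rpow_def_of_pos hR, mul_comm]
  have e2 : Real.exp ((c - 1) * Real.log R) = R ^ c / R := by
    rw [sub_mul, Real.exp_sub, e1, one_mul, Real.exp_log hR]
  have hp : 0 < R ^ c := Real.rpow_pos_of_pos hR c
  have h1 : (r : ℝ≥0∞) * ENNReal.ofReal (R ^ c / R / (1 - c)) ≤
      ENNReal.ofReal (R ^ c / (1 - c)) := by
    rw [← ENNReal.ofReal_natCast, ← ENNReal.ofReal_mul (Nat.cast_nonneg _)]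
    refine ENNReal.ofReal_le_ofReal ((mul_le_mul_of_nonneg_right hr (by positivity)).trans
      (le_of_eq ?_))
    field_simp
  rw [e1, e2, mul_assoc _ (r : ℝ≥0∞)]
  refine (add_le_add le_rfl (mul_le_mul_right h1 _)).trans (le_of_eq ?_)
  rw [← mul_add, ← ENNReal.ofReal_add (by positivity) (by positivity), mul_assoc, ← ofReal_norm,
    ← ENNReal.ofReal_mul (norm_nonneg _)]
  congr 2
  ring

theorem loc_zero {ι : Type} {l : Filter ι} [l.IsCountablyGenerated] (hc : 0 < c)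
    {G : ι → (Fin n → ℝ) → ℝ≥0∞} (hG : ∀ i, Measurable (G i)) {C : ℝ≥0∞} (hC : C ≠ ∞)
    (hb : ∀ i k, G i k ≤ C) (hz : ∀ k, Tendsto (fun i => G i k) l (𝓝 0)) (T : ℝ) :
    Tendsto (fun i => ∫⁻ s in Iic T, av a c (G i) s) l (𝓝 0) := by
  have h1 : ∀ s, Tendsto (fun i => av a c (G i) s) l (𝓝 0) := fun s => by
    have h2 := tendsto_lintegral_filter_of_dominated_convergence (μ := volume.restrict (Q n)) (l := l)
      (F := fun i u => G i (gam a s u)) (f := fun _ => 0) (fun _ => C)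
      (.of_forall fun i => (hG i).comp (gam_meas a s))
      (.of_forall fun i => .of_forall fun u => hb _ _) (by simpa [volQ] using hC)
      (.of_forall fun u => hz _)
    rw [lintegral_zero] at h2
    simpa [av] using ENNReal.Tendsto.const_mul (a := ENNReal.ofReal (Real.exp (c * s))) h2
      (Or.inr ENNReal.ofReal_ne_top)
  have h3 := tendsto_lintegral_filter_of_dominated_convergence (μ := volume.restrict (Iic T))
    (l := l) (F := fun i s => av a c (G i) s) (f := fun _ => 0) (av a c fun _ => C)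
    (.of_forall fun i => av_meas (hG i))
    (.of_forall fun i => .of_forall fun s => av_mono (hb i) s)
    (ne_top_of_le_ne_top (ENNReal.mul_ne_top hC ENNReal.ofReal_ne_top)
      (loc_le hc (fun _ => le_rfl) T)) (.of_forall h1)
  rwa [lintegral_zero] at h3

omit [CompleteSpace H] in
theorem inner_le_frame (hw : Frame M w) (e : H) (k : Fin n → ℝ) : ‖⟪e, w k⟫_ℂ‖ₑ ≤ ‖e‖ₑ * M := by
  refine le_trans ?_ (mul_le_mul_right (hw.bdd k) _)
  simp only [enorm_eq_nnnorm, ← ENNReal.coe_mul, ENNReal.coe_le_coe]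
  exact nnnorm_inner_le_nnnorm _ _

theorem decay' {ι : Type} {l : Filter ι} [l.IsCountablyGenerated] (ha : ∑ j, a j = 1)
    (hc : 0 < c) (hc1 : c < 1)
    {v : ι → (Fin n → ℝ) → H} (hv : ∀ i, Frame M (v i))
    (hz : ∀ h k, Tendsto (fun i => ⟪h, v i k⟫_ℂ) l (𝓝 0)) {m : ℕ} (e f : Fin m → H)
    {d ε : ℝ≥0∞} (hd : d ≠ ∞) (hε : 0 < ε) :
    ∀ᶠ i in l, ∀ w : (Fin n → ℝ) → H, Frame M w → ∀ g : (Fin n → ℝ) → ℝ≥0∞, Measurable g →
      ∫⁻ k, g k ≤ d → (∀ k, g k ≤ ∑ j, ‖⟪e j, w k⟫_ℂ‖ₑ * ‖⟪f j, v i k⟫_ℂ‖ₑ) →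
      Psi a c g ≤ ε := by
  have h2 := ENNReal.half_pos hε.ne'
  have t1 : Tendsto (fun T : ℝ => d * ENNReal.ofReal (Real.exp ((c - 1) * T) / (1 - c))) atTop
      (𝓝 0) := by
    have := ENNReal.Tendsto.const_mul (a := d) (ENNReal.tendsto_ofReal
      ((Real.tendsto_exp_atBot.comp (tendsto_id.const_mul_atTop_of_neg (sub_neg.2 hc1))).div_const
        (1 - c))) (Or.inr hd)
    simpa using this
  obtain ⟨T, hT⟩ := (ENNReal.tendsto_nhds_zero.mp t1 _ h2).exists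
  have t2 := loc_zero (a := a) (l := l) hc
    (G := fun i k => ∑ j, ‖e j‖ₑ * M * ‖⟪f j, v i k⟫_ℂ‖ₑ)
    (fun i => Finset.measurable_sum _ fun j _ => ((hv i).meas _).const_mul _)
    (C := ∑ j, ‖e j‖ₑ * M * (‖f j‖ₑ * M)) (ENNReal.sum_ne_top.2 fun j _ => by finiteness)
    (fun i k => Finset.sum_le_sum fun j _ => mul_le_mul_right (inner_le_frame (hv i) _ _) _)
    (fun k => by
      have := tendsto_finsetSum Finset.univ fun j _ => ENNReal.Tendsto.const_mul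
        (a := ‖e j‖ₑ * M) (hz (f j) k).enorm (Or.inr (by finiteness))
      simpa using this) T
  filter_upwards [ENNReal.tendsto_nhds_zero.mp t2 _ h2] with i hi w hw g hg hgd hgs
  refine (Psi_split ha hg hc1 hgd T).trans ((add_le_add (le_trans (lintegral_mono fun s =>
    av_mono (fun k => (hgs k).trans (Finset.sum_le_sum fun j _ => ?_)) s) hi) hT).trans
    (ENNReal.add_halves ε).le)
  exact mul_le_mul_left (inner_le_frame hw _ _) _

/-- approximation by finite rank operators for the weight `c` -/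
def Apy (a : Fin n → ℝ) (c : ℝ) (K : H →L[ℂ] H) : Prop :=
  ∀ ε : ℝ≥0∞, 0 < ε → ∃ F r, Rk r F ∧ ‖K - F‖ₑ ≤ ε ∧ ∀ (M : ℝ≥0) (v w : (Fin n → ℝ) → H),
    Frame M v → Frame M w → Psi a c (fun k => ‖⟪w k, (K - F) (v k)⟫_ℂ‖ₑ) ≤ M ^ 2 * ε

theorem Apy.small {ι : Type} {l : Filter ι} [l.IsCountablyGenerated] (ha : ∑ j, a j = 1)
    (hc : 0 < c) (hc1 : c < 1)
    {K : H →L[ℂ] H} (hK : Apy a c K) {v : ι → (Fin n → ℝ) → H} (hv : ∀ i, Frame M (v i))
    (hz : ∀ h k, Tendsto (fun i => ⟪h, v i k⟫_ℂ) l (𝓝 0)) {ε : ℝ≥0∞} (hε : 0 < ε) :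
    ∀ᶠ i in l, ∀ w : (Fin n → ℝ) → H, Frame M w →
      Psi a c (fun k => ‖⟪w k, K (v i k)⟫_ℂ‖ₑ) ≤ ε ∧
      Psi a c (fun k => ‖⟪v i k, K (w k)⟫_ℂ‖ₑ) ≤ ε := by
  have h2 := ENNReal.half_pos hε.ne'
  obtain ⟨δ, hδ, hδ'⟩ := ENNReal.exists_nnreal_pos_mul_lt (a := (M : ℝ≥0∞) ^ 2) (by finiteness)
    h2.ne'
  obtain ⟨F, r, hF, -, hΦ⟩ := hK δ (by exact_mod_cast hδ)
  obtain ⟨m, e, f, -, -, -, h⟩ := hF.decomp
  have hd : (M : ℝ≥0∞) ^ 2 * ‖F‖ₑ * r ≠ ∞ := by finiteness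
  rw [mul_comm] at hδ'
  filter_upwards [decay' ha hc hc1 hv hz e f hd h2, decay' ha hc hc1 hv hz f e hd h2]
    with i h3 h4 w hw
  have hs := hv i
  constructor
  · refine (Psi_add (meas_pair hs hw _) fun k => split_pair K F _ _).trans
      ((add_le_add ((hΦ M _ _ hs hw).trans hδ'.le) ?_).trans (ENNReal.add_halves ε).le)
    exact h3 w hw _ (meas_pair hs hw _) (lint_rank hs hw hF) fun k => h _ _
  · refine (Psi_add (meas_pair hw hs _) fun k => split_pair K F _ _).trans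
      ((add_le_add ((hΦ M _ _ hw hs).trans hδ'.le) ?_).trans (ENNReal.add_halves ε).le)
    exact h4 w hw _ (meas_pair hw hs _) (lint_rank hw hs hF) fun k =>
      (h _ _).trans (le_of_eq (by simp only [mul_comm]))

theorem boundary (ha : ∑ j, a j = 1) {K : H →L[ℂ] H} (hK : ∀ ε : ℝ≥0∞, 0 < ε → ∃ F r, Rk r F ∧ ‖K - F‖ₑ ≤ ε)
    (hv : Frame M v) (hw : Frame M w) {ε : ℝ≥0∞} (hε : 0 < ε) :
    ∃ s : ℝ, ∫⁻ u in Q n, ‖⟪w (gam a s u), K (v (gam a s u))⟫_ℂ‖ₑ ≤ ε := by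
  have h2 := ENNReal.half_pos hε.ne'
  obtain ⟨δ, hδ, hδ'⟩ := ENNReal.exists_nnreal_pos_mul_lt (a := (M : ℝ≥0∞) ^ 2) (by finiteness)
    h2.ne'
  obtain ⟨F, r, hF, hn⟩ := hK δ (by exact_mod_cast hδ)
  obtain ⟨η, hη, hη'⟩ := ENNReal.exists_nnreal_pos_mul_lt
    (a := (M : ℝ≥0∞) ^ 2 * ‖F‖ₑ * r) (by finiteness) h2.ne'
  refine ⟨-Real.log η, (lintegral_mono fun u => split_pair K F _ _).trans ?_⟩
  rw [lintegral_add_left (f := fun u => ‖⟪w (gam a (-Real.log η) u),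
    (K - F) (v (gam a (-Real.log η) u))⟫_ℂ‖ₑ) ((meas_pair hv hw _).comp (gam_meas a _))]
  refine (add_le_add (sq_le' fun u => (pair_le hv hw _ _).trans ?_)
    ((gam_le (meas_pair hv hw F) ha _).trans ?_)).trans (ENNReal.add_halves ε).le
  · exact (mul_le_mul_right hn _).trans (by rw [mul_comm]; exact hδ'.le)
  · rw [neg_neg, Real.exp_log (by exact_mod_cast hη), ENNReal.ofReal_coe_nnreal]
    exact (mul_le_mul_right (lint_rank hv hw hF) _).trans hη'.le

end Pool.Agent.Work.MP_707689_an.N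
end

-- merged part: Pool.Agent.Work.MP_707689_an.Spec
section
/-! From a projection valued measure to the Fourier formula for the scalar measures. -/

open MeasureTheory Set Filter Topology Complex
open scoped ENNReal NNReal InnerProductSpace

namespace Pool.Agent.Work.MP_707689_an

variable {H : Type} [NormedAddCommGroup H] [InnerProductSpace ℂ H] [CompleteSpace H]

/-- a projection valued measure with its scalar measures -/
structure PV (E : Set (ℝ × ℝ) → H →L[ℂ] H) (μ : H → Measure (ℝ × ℝ)) : Prop where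
  sa : ∀ S, MeasurableSet S → IsSelfAdjoint (E S)
  inter : ∀ S T, MeasurableSet S → MeasurableSet T → E (S ∩ T) = E S * E T
  univ : E univ = 1
  app : ∀ x S, MeasurableSet S → μ x S = ‖E S x‖ₑ ^ 2

/-- `A` is the integral of `g` -/
def Intg (μ : H → Measure (ℝ × ℝ)) (g : ℝ × ℝ → ℝ) (A : H →L[ℂ] H) : Prop :=
  ∀ x, Integrable g (μ x) ∧ ⟪x, A x⟫_ℂ = ((∫ p, g p ∂μ x : ℝ) : ℂ)

variable {E : Set (ℝ × ℝ) → H →L[ℂ] H} {μ : H → Measure (ℝ × ℝ)} {S T : Set (ℝ × ℝ)}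
  {g : ℝ × ℝ → ℝ} {A : H →L[ℂ] H}

namespace PV

theorem fin (h : PV E μ) (x : H) : IsFiniteMeasure (μ x) :=
  ⟨by rw [h.app x _ MeasurableSet.univ]; finiteness⟩

theorem real (h : PV E μ) (x : H) (hS : MeasurableSet S) : (μ x).real S = ‖E S x‖ ^ 2 := by
  rw [Measure.real, h.app x S hS, ENNReal.toReal_pow, toReal_enorm]

theorem ee (h : PV E μ) (hS : MeasurableSet S) (hT : MeasurableSet T) (x : H) :
    E S (E T x) = E (S ∩ T) x := by
  rw [h.inter S T hS hT]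
  rfl

theorem empty (h : PV E μ) (x : H) : E ∅ x = 0 := by
  have := h.real x MeasurableSet.empty
  rw [measureReal_empty] at this
  exact norm_eq_zero.1 (pow_eq_zero_iff two_ne_zero |>.1 this.symm)

theorem orth (h : PV E μ) (hS : MeasurableSet S) (hT : MeasurableSet T) (hd : Disjoint S T)
    (x y : H) : ⟪E S x, E T y⟫_ℂ = 0 := by
  rw [sa_inner (h.sa S hS), h.ee hS hT, hd.inter_eq, h.empty, inner_zero_right]

theorem sq (h : PV E μ) (hS : MeasurableSet S) (x : H) :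
    ⟪x, E S x⟫_ℂ = ((‖E S x‖ ^ 2 : ℝ) : ℂ) := by
  conv_lhs => rw [← inter_self S, ← h.ee hS hS, ← sa_inner (h.sa S hS)]
  rw [inner_self_eq_norm_sq_to_K]
  norm_cast

theorem union (h : PV E μ) (hS : MeasurableSet S) (hT : MeasurableSet T) (hd : Disjoint S T)
    (x : H) : E (S ∪ T) x = E S x + E T x := by
  have := h.fin x
  have h1 := measureReal_union (μ := μ x) hd hT
  rw [h.real x (hS.union hT), h.real x hS, h.real x hT] at h1
  have e : ∀ {U}, MeasurableSet U → U ⊆ S ∪ T →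
      ⟪E (S ∪ T) x, E U x⟫_ℂ = ((‖E U x‖ ^ 2 : ℝ) : ℂ) := fun {U} hU hs => by
    rw [sa_inner (h.sa _ (hS.union hT)), h.ee (hS.union hT) hU, inter_eq_right.2 hs, h.sq hU]
  have h2 := norm_sub_sq (𝕜 := ℂ) (E (S ∪ T) x) (E S x + E T x)
  have h3 := norm_add_sq (𝕜 := ℂ) (E S x) (E T x)
  rw [inner_add_right, e hS subset_union_left, e hT subset_union_right, h3,
    h.orth hS hT hd, ← ofReal_add] at h2
  simp only [RCLike.re_to_complex, ofReal_re, map_zero] at h2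
  refine sub_eq_zero.1 (norm_eq_zero.1 (pow_eq_zero_iff two_ne_zero |>.1 ?_))
  linarith

theorem compl (h : PV E μ) (hS : MeasurableSet S) (x : H) : E S x + E Sᶜ x = x := by
  rw [← h.union hS hS.compl disjoint_compl_right, union_compl_self, h.univ]
  rfl

theorem restrict (h : PV E μ) (hT : MeasurableSet T) (x : H) :
    μ (E T x) = (μ x).restrict T := by
  ext S hS
  rw [Measure.restrict_apply hS, h.app _ S hS, h.app _ _ (hS.inter hT), h.ee hS hT]

theorem add (h : PV E μ) (hT : MeasurableSet T) (x y : H) :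
    μ (E T x + E Tᶜ y) = μ (E T x) + μ (E Tᶜ y) := by
  ext S hS
  have := h.fin (E T x + E Tᶜ y)
  have := h.fin (E T x)
  have := h.fin (E Tᶜ y)
  rw [← measureReal_eq_measureReal_iff, measureReal_add_apply, h.real _ hS, h.real _ hS,
    h.real _ hS, map_add, norm_add_sq (𝕜 := ℂ), h.ee hS hT, h.ee hS hT.compl,
    h.orth (hS.inter hT) (hS.inter hT.compl)
      (disjoint_compl_right.mono inter_subset_right inter_subset_right)]
  simp

theorem cross (h : PV E μ) (hA : Intg μ g A) (hT : MeasurableSet T) (x y : H) :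
    ⟪E T x, A (E Tᶜ y)⟫_ℂ = 0 ∧ ⟪E Tᶜ y, A (E T x)⟫_ℂ = 0 := by
  have k : ∀ y, ⟪E T x, A (E Tᶜ y)⟫_ℂ + ⟪E Tᶜ y, A (E T x)⟫_ℂ = 0 := fun y => by
    have h1 := (hA (E T x + E Tᶜ y)).2
    rw [h.add hT, integral_add_measure (hA _).1 (hA _).1, ofReal_add, ← (hA _).2, ← (hA _).2,
      map_add, inner_add_left, inner_add_right, inner_add_right] at h1
    linear_combination h1
  have h1 := k y
  have h2 := k (I • y)
  rw [map_smul, map_smul, inner_smul_right, inner_smul_left, conj_I] at h2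
  constructor
  · linear_combination (1 / 2 : ℂ) * h1 - I / 2 * h2 + (⟪E T x, A (E Tᶜ y)⟫_ℂ -
      ⟪E Tᶜ y, A (E T x)⟫_ℂ) / 2 * I_mul_I
  · linear_combination (1 / 2 : ℂ) * h1 + I / 2 * h2 - (⟪E T x, A (E Tᶜ y)⟫_ℂ -
      ⟪E Tᶜ y, A (E T x)⟫_ℂ) / 2 * I_mul_I

theorem comm (h : PV E μ) (hA : Intg μ g A) (hT : MeasurableSet T) : Commute (E T) A := by
  ext x
  refine ext_inner_left ℂ fun y => ?_
  change ⟪y, E T (A x)⟫_ℂ = ⟪y, A (E T x)⟫_ℂ
  rw [← sa_inner (h.sa T hT)]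
  conv_lhs => rw [← h.compl hT x, map_add, inner_add_right, (h.cross hA hT y x).1]
  conv_rhs => rw [← h.compl hT y, inner_add_left, (h.cross hA hT x y).2]

theorem near (h : PV E μ) (hA : Intg μ g A) (hs : IsSelfAdjoint A) (hT : MeasurableSet T)
    {c δ : ℝ} (hδ : 0 ≤ δ) (hg : ∀ p ∈ T, |g p - c| ≤ δ) (x : H) :
    ‖A (E T x) - (c : ℂ) • E T x‖ ≤ δ * ‖E T x‖ := by
  let B : H →L[ℂ] H := E T * (A - (c : ℂ) • 1) * E T
  have hB : IsSelfAdjoint B := by
    have h1 : IsSelfAdjoint (A - (c : ℂ) • (1 : H →L[ℂ] H)) :=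
      hs.sub (IsSelfAdjoint.smul (conj_ofReal c) (IsSelfAdjoint.one _))
    exact h1.conjugate_self (h.sa T hT)
  have h1 : ‖B‖ ≤ δ := by
    rw [B.norm_eq_iSup_rayleighQuotient hB.isSymmetric]
    refine ciSup_le fun z => ?_
    have := h.fin (E T z)
    have e : B.reApplyInnerSelf z = ∫ p, (g p - c) ∂μ (E T z) := by
      rw [ContinuousLinearMap.reApplyInnerSelf_apply, sa_inner hB, integral_sub (hA _).1
        (integrable_const _), integral_const, h.real _ MeasurableSet.univ, h.univ]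
      change re ⟪z, E T (A (E T z) - (c : ℂ) • E T z)⟫_ℂ = _
      rw [← sa_inner (h.sa T hT), inner_sub_right, (hA _).2, inner_smul_right,
        inner_self_eq_norm_sq_to_K]
      simp [← ofReal_pow, mul_comm]
    have b : |∫ p, (g p - c) ∂μ (E T z)| ≤ δ * ‖z‖ ^ 2 := by
      rw [← Real.norm_eq_abs, h.restrict hT]
      have := h.fin z
      refine (norm_setIntegral_le_of_norm_le_const (measure_lt_top _ _) hg).trans ?_
      refine mul_le_mul_of_nonneg_left ((measureReal_mono (subset_univ T)).trans ?_) hδ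
      rw [h.real _ MeasurableSet.univ, h.univ]
      rfl
    rw [ContinuousLinearMap.rayleighQuotient, e, abs_div, abs_sq]
    exact div_le_of_le_mul₀ (sq_nonneg _) hδ b
  have h2 : B (E T x) = A (E T x) - (c : ℂ) • E T x := by
    change E T (A (E T (E T x)) - (c : ℂ) • E T (E T x)) = _
    have e : ∀ y, E T (A y) = A (E T y) := fun y => DFunLike.congr_fun (h.comm hA hT).eq y
    simp only [map_sub, map_smul, e, h.ee hT hT, inter_self]
  rw [← h2]
  exact (B.le_opNorm _).trans (mul_le_mul_of_nonneg_right h1 (norm_nonneg _))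

end PV

theorem ex_near (hs : IsSelfAdjoint A) {c η : ℝ} {z : H} (h : ‖A z - (c : ℂ) • z‖ ≤ η) (s : ℝ) :
    ‖ex A s z - cexp (I * (s * c : ℝ)) • z‖ ≤ |s| * η := by
  have hd : ∀ t : ℝ, HasDerivAt (fun t : ℝ => cexp (-(I * (t * c : ℝ))) • ex A t z)
      ((I * cexp (-(I * (t * c : ℝ)))) • ex A t (A z - (c : ℂ) • z)) t := fun t => by
    have d1 : HasDerivAt (fun t : ℝ => cexp (-(I * (t * c : ℝ))))
        (cexp (-(I * (t * c : ℝ))) * -(I * c)) t :=
      ((hasDerivAt_mul_const c).ofReal_comp.const_mul I).neg.cexp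
    refine (d1.smul (deriv_app (ex_deriv t) z)).congr_deriv ?_
    have e : A (ex A t z) = ex A t (A z) := DFunLike.congr_fun (ex_comm (Commute.refl A) t).eq z
    change _ • I • A (ex A t z) + _ = _
    rw [e, map_sub, map_smul, smul_sub, smul_smul, smul_smul, sub_eq_add_neg, ← neg_smul]
    congr 2 <;> ring
  have n1 : ∀ t : ℝ, ‖cexp (-(I * (t : ℝ)))‖ = 1 := fun t => by
    rw [norm_exp]
    simp
  have h1 := Convex.norm_image_sub_le_of_norm_hasDerivWithin_le (s := univ) (C := η)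
    (fun t _ => (hd t).hasDerivWithinAt)
    (fun t _ => by rwa [norm_smul, norm_mul, norm_I, n1, one_mul, one_mul, ex_norm hs])
    convex_univ (mem_univ 0) (mem_univ s)
  have e : cexp (-(I * (s * c : ℝ))) • ex A s z - cexp (-(I * (0 * c : ℝ))) • ex A 0 z =
      cexp (-(I * (s * c : ℝ))) • (ex A s z - cexp (I * (s * c : ℝ)) • z) := by
    rw [smul_sub, smul_smul, ← Complex.exp_add, ex_zero]
    simp
  rw [e, norm_smul, n1, one_mul, sub_zero, Real.norm_eq_abs, mul_comm η] at h1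
  exact h1

theorem ch_near (k p c : ℝ × ℝ) {δ : ℝ} (h1 : |p.1 - c.1| ≤ δ) (h2 : |p.2 - c.2| ≤ δ) :
    ‖ch k p - ch k c‖ ≤ (|k.1| + |k.2|) * δ := by
  have e : ch k p - ch k c =
      ch k c * (cexp (I * (k.1 * (p.1 - c.1) + k.2 * (p.2 - c.2) : ℝ)) - 1) := by
    rw [mul_sub, mul_one, ch, ch, ← Complex.exp_add]
    congr 2
    push_cast
    ring
  rw [e, norm_mul, ch_norm, one_mul]
  refine Real.norm_exp_I_mul_ofReal_sub_one_le.trans ((abs_add_le _ _).trans ?_)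
  rw [abs_mul, abs_mul, add_mul]
  gcongr

theorem ch_int (k : ℝ × ℝ) (ν : Measure (ℝ × ℝ)) [IsFiniteMeasure ν] : Integrable (ch k) ν :=
  .of_bound (ch_cont k).aestronglyMeasurable 1 (.of_forall fun p => (ch_norm k p).le)

variable {A₁ A₂ : H →L[ℂ] H}

theorem PV.cell (h : PV E μ) (h₁ : Intg μ Prod.fst A₁) (h₂ : Intg μ Prod.snd A₂)
    (s₁ : IsSelfAdjoint A₁) (s₂ : IsSelfAdjoint A₂) (k c : ℝ × ℝ) (x : H) {δ : ℝ} (hδ : 0 ≤ δ)
    (hT : MeasurableSet T) (hc : ∀ p ∈ T, |p.1 - c.1| ≤ δ ∧ |p.2 - c.2| ≤ δ) :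
    ‖⟪x, ex A₁ k.1 (ex A₂ k.2 (E T x))⟫_ℂ - ∫ p in T, ch k p ∂μ x‖ ≤
      2 * ((|k.1| + |k.2|) * δ) * (μ x).real T := by
  have := h.fin x
  have a1 := ex_near s₁ (h.near h₁ s₁ hT hδ (fun p hp => (hc p hp).1) x) k.1
  have a2 := ex_near s₂ (h.near h₂ s₂ hT hδ (fun p hp => (hc p hp).2) x) k.2
  have a3 : ‖ex A₁ k.1 (ex A₂ k.2 (E T x)) - ch k c • E T x‖ ≤
      (|k.1| + |k.2|) * δ * ‖E T x‖ := by
    have e : ex A₁ k.1 (ex A₂ k.2 (E T x)) - ch k c • E T x =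
        ex A₁ k.1 (ex A₂ k.2 (E T x) - cexp (I * (k.2 * c.2 : ℝ)) • E T x) +
          cexp (I * (k.2 * c.2 : ℝ)) • (ex A₁ k.1 (E T x) - cexp (I * (k.1 * c.1 : ℝ)) • E T x) := by
      rw [map_sub, map_smul, smul_sub, smul_smul, ← Complex.exp_add, ch, sub_add_sub_cancel,
        ofReal_add, mul_add, add_comm]
    rw [e]
    refine (norm_add_le _ _).trans ?_
    rw [ex_norm s₁, norm_smul, norm_exp_I_mul_ofReal]
    linarith
  have e1 : ⟪x, ex A₁ k.1 (ex A₂ k.2 (E T x))⟫_ℂ = ⟪E T x, ex A₁ k.1 (ex A₂ k.2 (E T x))⟫_ℂ := by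
    have c1 : ∀ y, E T (ex A₁ k.1 y) = ex A₁ k.1 (E T y) :=
      fun y => DFunLike.congr_fun (ex_comm (h.comm h₁ hT) k.1).eq y
    have c2 : ∀ y, E T (ex A₂ k.2 y) = ex A₂ k.2 (E T y) :=
      fun y => DFunLike.congr_fun (ex_comm (h.comm h₂ hT) k.2).eq y
    rw [sa_inner (h.sa T hT), c1, c2, h.ee hT hT, inter_self]
  have e2 : ⟪E T x, ch k c • E T x⟫_ℂ = ∫ _ in T, ch k c ∂μ x := by
    rw [setIntegral_const, h.real x hT, inner_smul_right, inner_self_eq_norm_sq_to_K]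
    simp [mul_comm]
  have i1 : Integrable (ch k) (μ x) := ch_int k _
  have b1 : ‖⟪x, ex A₁ k.1 (ex A₂ k.2 (E T x))⟫_ℂ - ∫ _ in T, ch k c ∂μ x‖ ≤
      (|k.1| + |k.2|) * δ * (μ x).real T := by
    rw [e1, ← e2, ← inner_sub_right, h.real x hT]
    refine (norm_inner_le_norm _ _).trans ?_
    have := mul_le_mul_of_nonneg_left a3 (norm_nonneg (E T x))
    linarith
  have b2 : ‖(∫ p in T, ch k p ∂μ x) - ∫ _ in T, ch k c ∂μ x‖ ≤
      (|k.1| + |k.2|) * δ * (μ x).real T := by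
    rw [← integral_sub i1.integrableOn (integrable_const _)]
    exact norm_setIntegral_le_of_norm_le_const (measure_lt_top _ _)
      fun p hp => ch_near k p c (hc p hp).1 (hc p hp).2
  have := norm_sub_le_norm_sub_add_norm_sub (⟪x, ex A₁ k.1 (ex A₂ k.2 (E T x))⟫_ℂ)
    (∫ _ in T, ch k c ∂μ x) (∫ p in T, ch k p ∂μ x)
  rw [norm_sub_rev (∫ _ in T, ch k c ∂μ x)] at this
  linarith

theorem PV.fourier (h : PV E μ) (h₁ : Intg μ Prod.fst A₁) (h₂ : Intg μ Prod.snd A₂)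
    (s₁ : IsSelfAdjoint A₁) (s₂ : IsSelfAdjoint A₂) (x : H) (k : ℝ × ℝ) :
    ⟪x, (ex A₁ k.1 * ex A₂ k.2) x⟫_ℂ = ∫ p, ch k p ∂μ x := by
  have := h.fin x
  have i1 : Integrable (ch k) (μ x) := ch_int k _
  let ν : Set (ℝ × ℝ) → ℂ := fun T =>
    ⟪x, ex A₁ k.1 (ex A₂ k.2 (E T x))⟫_ℂ - ∫ p in T, ch k p ∂μ x
  have add : ∀ {S T}, MeasurableSet S → MeasurableSet T → Disjoint S T → ν (S ∪ T) = ν S + ν T :=
    fun {S T} hS hT hd => by
      simp only [ν, h.union hS hT hd, map_add, inner_add_right,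
        setIntegral_union hd hT i1.integrableOn i1.integrableOn]
      ring
  have crude : ∀ {T}, MeasurableSet T → ‖ν T‖ ≤ ‖x‖ * √((μ x).real T) + (μ x).real T :=
    fun {T} hT => by
      refine (norm_sub_le _ _).trans (add_le_add ((norm_inner_le_norm _ _).trans ?_) ?_)
      · rw [ex_norm s₁, ex_norm s₂, h.real x hT, Real.sqrt_sq (norm_nonneg _)]
      · simpa using norm_setIntegral_le_of_norm_le_const (μ := μ x) (s := T) (measure_lt_top _ _)
          fun p _ => (ch_norm k p).le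
  have key : ∀ δ : ℝ, 0 < δ → ‖ν Set.univ‖ ≤ 2 * ((|k.1| + |k.2|) * δ) * (μ x).real Set.univ := by
    intro δ hδ
    let q : ℝ × ℝ → ℤ × ℤ := fun p => (⌊p.1 / δ⌋, ⌊p.2 / δ⌋)
    have hq : Measurable q := by fun_prop
    have m : ∀ F : Set (ℤ × ℤ), MeasurableSet (q ⁻¹' F) := fun F => hq (MeasurableSet.of_discrete)
    have fl : ∀ a : ℝ, |a - ⌊a / δ⌋ * δ| ≤ δ := fun a => by
      have a1 := (le_div_iff₀ hδ).1 (Int.floor_le (a / δ))
      have a2 := (div_lt_iff₀ hδ).1 (Int.lt_floor_add_one (a / δ))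
      rw [abs_le]
      constructor <;> linarith
    have fs : ∀ F : Finset (ℤ × ℤ),
        ‖ν (q ⁻¹' F)‖ ≤ 2 * ((|k.1| + |k.2|) * δ) * (μ x).real (q ⁻¹' F) := by
      intro F
      induction F using Finset.induction_on with
      | empty => simp [ν, h.empty]
      | insert n F hn ih =>
        have hd : Disjoint (q ⁻¹' {n}) (q ⁻¹' F) :=
          (disjoint_singleton_left.2 (by simpa using hn)).preimage q
        rw [Finset.coe_insert, insert_eq, preimage_union, add (m _) (m _) hd,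
          measureReal_union hd (m _), mul_add]
        refine (norm_add_le _ _).trans (add_le_add ?_ ih)
        refine h.cell h₁ h₂ s₁ s₂ k (n.1 * δ, n.2 * δ) x hδ.le (m _) fun p hp => ?_
        obtain rfl : q p = n := hp
        exact ⟨fl _, fl _⟩
    let R : ℕ → Set (ℝ × ℝ) := fun N =>
      (q ⁻¹' (Finset.Icc (-(N : ℤ), -(N : ℤ)) ((N : ℤ), (N : ℤ)) : Finset (ℤ × ℤ)))ᶜ
    have t1 : Tendsto (fun N => (μ x).real (R N)) atTop (𝓝 0) := by
      have t := tendsto_measure_iInter_atTop (μ := μ x) (s := R)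
        (fun N => (m _).compl.nullMeasurableSet)
        (fun N N' hN => compl_subset_compl.2 (preimage_mono (Finset.coe_subset.2
          (Finset.Icc_subset_Icc ⟨by simpa using hN, by simpa using hN⟩
            ⟨by simpa using hN, by simpa using hN⟩)))) ⟨0, measure_ne_top _ _⟩
      have e : ⋂ N, R N = ∅ := eq_empty_of_forall_notMem fun p hp =>
        mem_iInter.1 hp ((q p).1.natAbs + (q p).2.natAbs) (by
          simp only [mem_preimage, Finset.coe_Icc, mem_Icc, Prod.le_def]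
          omega)
      rw [e, measure_empty] at t
      exact (ENNReal.tendsto_toReal ENNReal.zero_ne_top).comp t
    have t2 := ((t1.sqrt.const_mul ‖x‖).add t1).const_add
      (2 * ((|k.1| + |k.2|) * δ) * (μ x).real Set.univ)
    rw [Real.sqrt_zero, mul_zero, add_zero, add_zero] at t2
    refine ge_of_tendsto' t2 fun N => ?_
    rw [← compl_union_self (R N), add (m _).compl.compl (m _).compl disjoint_compl_left,
      compl_union_self]
    refine (norm_add_le _ _).trans (add_le_add ?_ (crude (m _).compl))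
    rw [compl_compl]
    exact (fs _).trans (mul_le_mul_of_nonneg_left (measureReal_mono (subset_univ _))
      (by positivity))
  have t : Tendsto (fun δ : ℝ => 2 * ((|k.1| + |k.2|) * δ) * (μ x).real Set.univ) (𝓝[>] 0) (𝓝 0) := by
    refine tendsto_nhdsWithin_of_tendsto_nhds (Continuous.tendsto' (by fun_prop) _ _ (by simp))
  have z := norm_le_zero_iff.1 (ge_of_tendsto t (eventually_nhdsWithin_of_forall key))
  simpa [ν, h.univ, sub_eq_zero] using z

end Pool.Agent.Work.MP_707689_an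
end

-- merged part: Pool.Agent.Work.MP_707689_an.Wave
section
/-! The wave operator on the absolutely continuous subspace. -/

open MeasureTheory Set Filter Topology Complex
open scoped ENNReal NNReal InnerProductSpace Real FourierTransform

namespace Pool.Agent.Work.MP_707689_an

variable {H : Type} [NormedAddCommGroup H] [InnerProductSpace ℂ H] [CompleteSpace H]

/-- the absolutely continuous subspace -/
def acSub (E : Set (ℝ × ℝ) → H →L[ℂ] H) : Submodule ℂ H where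
  carrier := {x | ∀ S, MeasurableSet S → volume S = 0 → E S x = 0}
  zero_mem' := fun S _ _ => map_zero _
  add_mem' := fun {a b} ha hb S h1 h2 => by rw [map_add, ha S h1 h2, hb S h1 h2, add_zero]
  smul_mem' := fun c a ha S h1 h2 => by rw [map_smul, ha S h1 h2, smul_zero]

variable {E : Set (ℝ × ℝ) → H →L[ℂ] H} {μ : H → Measure (ℝ × ℝ)} {A₁ A₂ B₁ B₂ : H →L[ℂ] H}

omit [CompleteSpace H] in
theorem acSub_closed : IsClosed (acSub E : Set H) := by
  have : (acSub E : Set H) = ⋂ S, ⋂ _ : MeasurableSet S, ⋂ _ : volume S = 0, {x | E S x = 0} := by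
    ext x
    simp only [mem_iInter]
    rfl
  rw [this]
  exact isClosed_iInter fun S => isClosed_iInter fun _ => isClosed_iInter fun _ =>
    isClosed_eq (E S).continuous continuous_const

instance : CompleteSpace (acSub E) := acSub_closed.completeSpace_coe

omit [CompleteSpace H] in
theorem acSub_map {A : H →L[ℂ] H} (h : ∀ S, MeasurableSet S → Commute (E S) A) {x : H}
    (hx : x ∈ acSub E) : A x ∈ acSub E := fun S h1 h2 => by
  have e : E S (A x) = A (E S x) := DFunLike.congr_fun (h S h1).eq x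
  rw [e, hx S h1 h2, map_zero]

theorem PV.ac (h : PV E μ) {x : H} (hx : x ∈ acSub E) : μ x ≪ volume :=
  Measure.AbsolutelyContinuous.mk fun S h1 h2 => by simp [h.app x S h1, hx S h1 h2]

theorem riemann {ν : Measure (ℝ × ℝ)} [IsFiniteMeasure ν] (h : ν ≪ volume) :
    Tendsto (fun t : ℝ => ∫ p, ch (t, 0) p ∂ν) atTop (𝓝 0) := by
  have h1 : ν.map Prod.fst ≪ (volume : Measure ℝ) :=
    (h.map measurable_fst).trans (Measure.quasiMeasurePreserving_fst).absolutelyContinuous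
  have h2 : Tendsto (fun t : ℝ => -(t / (2 * π))) atTop (cocompact ℝ) :=
    (tendsto_neg_atTop_atBot.comp (tendsto_id.atTop_div_const (by positivity))).mono_right
      atBot_le_cocompact
  refine ((Real.tendsto_integral_exp_smul_cocompact
    fun v => ((((ν.map Prod.fst).rnDeriv volume v).toReal : ℝ) : ℂ)).comp h2).congr fun t => ?_
  have e : ∫ p, ch (t, 0) p ∂ν = ∫ v : ℝ, cexp (I * (t * v : ℝ)) ∂ν.map Prod.fst := by
    rw [integral_map measurable_fst.aemeasurable (by fun_prop)]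
    simp [ch]
  rw [e, ← integral_rnDeriv_smul h1]
  refine integral_congr_ae (.of_forall fun v => ?_)
  simp only [Circle.smul_def, Real.fourierChar_apply, smul_eq_mul, real_smul]
  rw [mul_comm]
  congr 2
  have := Real.pi_pos
  rw [mul_comm I]
  congr 2
  field_simp

theorem PV.weak (h : PV E μ) (h₁ : Intg μ Prod.fst A₁) (h₂ : Intg μ Prod.snd A₂)
    (s₁ : IsSelfAdjoint A₁) (s₂ : IsSelfAdjoint A₂) {x : H} (hx : x ∈ acSub E) (f : H) :
    Tendsto (fun t : ℝ => ⟪ex A₁ t x, f⟫_ℂ) atTop (𝓝 0) := by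
  have d : ∀ z ∈ acSub E, Tendsto (fun t : ℝ => ⟪ex A₁ t z, z⟫_ℂ) atTop (𝓝 0) := fun z hz => by
    have := h.fin z
    rw [tendsto_zero_iff_norm_tendsto_zero]
    refine (tendsto_zero_iff_norm_tendsto_zero.1 (riemann (h.ac hz))).congr fun t => ?_
    rw [← h.fourier h₁ h₂ s₁ s₂, norm_inner_symm, ex_zero, mul_one]
  have hy := (acSub E).starProjection_apply_mem f
  have t := ((((d _ (add_mem hy hx)).sub (d _ (sub_mem hy hx))).add
    ((d _ (add_mem hy (Submodule.smul_mem _ I hx))).const_mul I)).sub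
    ((d _ (sub_mem hy (Submodule.smul_mem _ I hx))).const_mul I)).div_const 4
  simp only [mul_zero, sub_zero, add_zero, zero_div] at t
  refine t.congr fun t => ?_
  have e := inner_map_polarization (ex A₁ t : H →ₗ[ℂ] H) ((acSub E).starProjection f) x
  simp only [ContinuousLinearMap.coe_coe] at e
  rw [← e, ← Submodule.inner_starProjection_left_eq_right, Submodule.starProjection_eq_self_iff.2
    (acSub_map (fun S hS => ex_comm (h.comm h₁ hS) t) hx)]

theorem Apx.strong {K : H →L[ℂ] H} (hK : Apx K) {u : ℝ → H} {c : ℝ} (hc : ∀ t, ‖u t‖ = c)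
    (hu : ∀ f, Tendsto (fun t => ⟪u t, f⟫_ℂ) atTop (𝓝 0)) :
    Tendsto (fun t => K (u t)) atTop (𝓝 0) := by
  have hc0 : 0 ≤ c := hc 0 ▸ norm_nonneg _
  rw [NormedAddGroup.tendsto_nhds_zero]
  intro ε hε
  obtain ⟨F, r, hF, h1, -⟩ := hK (ENNReal.ofReal (ε / (2 * (c + 1))))
    (ENNReal.ofReal_pos.2 (by positivity))
  rw [← ofReal_norm, ENNReal.ofReal_le_ofReal_iff (by positivity),
    le_div_iff₀ (by positivity)] at h1
  obtain ⟨n, e, f, -, he, -, hd⟩ := hF.decomp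
  have h2 : ∀ y, ‖F y‖ ≤ ∑ i, ‖⟪y, f i⟫_ℂ‖ := fun y => by
    have h3 : ‖⟪F y, F y⟫_ℂ‖ₑ ≤ ∑ i, ‖F y‖ₑ * ‖⟪y, f i⟫_ℂ‖ₑ :=
      (hd _ _).trans (Finset.sum_le_sum fun i _ => mul_le_mul'
        (enorm_le_iff_norm_le.2 ((norm_inner_le_norm _ _).trans (mul_le_of_le_one_left
          (norm_nonneg _) (by simpa [← ofReal_norm] using he i))))
        (by rw [← ofReal_norm, norm_inner_symm, ofReal_norm]))
    simp only [enorm_eq_nnnorm, ← ENNReal.coe_mul, ← ENNReal.ofNNReal_finsetSum, ENNReal.coe_le_coe,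
      ← NNReal.coe_le_coe, NNReal.coe_sum, NNReal.coe_mul, coe_nnnorm, ← Finset.mul_sum] at h3
    rw [inner_self_eq_norm_sq_to_K, norm_pow, RCLike.norm_ofReal, abs_norm, sq] at h3
    rcases (norm_nonneg (F y)).eq_or_lt with h | h
    · rw [← h]
      positivity
    · exact le_of_mul_le_mul_left h3 h
  have h4 := tendsto_finsetSum Finset.univ fun i _ => (hu (f i)).norm
  simp only [norm_zero, Finset.sum_const_zero] at h4
  filter_upwards [h4.eventually (gt_mem_nhds (half_pos hε))] with t ht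
  have h5 : K (u t) = (K - F) (u t) + F (u t) := by simp
  have h6 := (K - F).le_opNorm (u t)
  have h7 := norm_add_le ((K - F) (u t)) (F (u t))
  rw [hc] at h6
  rw [h5]
  nlinarith [h2 (u t), norm_nonneg (K - F)]

theorem wave (hA₁ : IsSelfAdjoint A₁) (hA₂ : IsSelfAdjoint A₂) (hB₁ : IsSelfAdjoint B₁)
    (hA : Commute A₁ A₂) (hB : Commute B₁ B₂) (hK₁ : InC2 (A₁ - B₁)) (hK₂ : InC2 (A₂ - B₂))
    (hE : IsJointSpec A₁ A₂ E) : ∃ W : H →L[ℂ] H, ∀ x ∈ acSub E,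
      Tendsto (fun t : ℝ => ex B₁ (-t) (ex A₁ t x)) atTop (𝓝 (W x)) ∧ ‖W x‖ = ‖x‖ ∧
        W (A₁ x) = B₁ (W x) ∧ W (A₂ x) = B₂ (W x) := by
  choose μ m1 m2 m3 m4 m5 using hE.int
  have h : PV E μ := ⟨hE.sa, hE.inter, hE.univ, m1⟩
  have h₁ : Intg μ Prod.fst A₁ := fun x => ⟨m2 x, m4 x⟩
  have h₂ : Intg μ Prod.snd A₂ := fun x => ⟨m3 x, m5 x⟩
  have k₁ := apx_of_summable hK₁.2
  have k₂ := apx_of_summable hK₂.2
  have ex1 : ∀ x : H, ∃ y, Tendsto
      (fun t : ℝ => ex B₁ (-t) (ex A₁ t ((acSub E).starProjection x))) atTop (𝓝 y) := fun x => by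
    have := h.fin ((acSub E).starProjection x)
    exact main hA₁ hA₂ hB₁ hA hB k₁ k₂ _ (h.ac ((acSub E).starProjection_apply_mem x))
      (h.fourier h₁ h₂ hA₁ hA₂ _)
  choose w hw using ex1
  have hw' : ∀ x ∈ acSub E, Tendsto (fun t : ℝ => ex B₁ (-t) (ex A₁ t x)) atTop (𝓝 (w x)) :=
    fun x hx => by simpa only [Submodule.starProjection_eq_self_iff.2 hx] using hw x
  have int : ∀ {A B : H →L[ℂ] H}, Commute A A₁ → Commute B B₁ → Apx (A - B) →
      (∀ S, MeasurableSet S → Commute (E S) A) → ∀ x ∈ acSub E, w (A x) = B (w x) := by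
    intro A B c1 c2 hK hc x hx
    refine tendsto_nhds_unique (hw' _ (acSub_map hc hx)) ?_
    have t1 := hK.strong (fun t => ex_norm hA₁ t x) (h.weak h₁ h₂ hA₁ hA₂ hx)
    have t2 : Tendsto (fun t : ℝ => ex B₁ (-t) ((A - B) (ex A₁ t x))) atTop (𝓝 0) := by
      rw [tendsto_zero_iff_norm_tendsto_zero] at t1 ⊢
      simpa only [ex_norm hB₁] using t1
    have t3 := ((B.continuous.tendsto _).comp (hw' x hx)).add t2
    rw [add_zero] at t3
    refine t3.congr fun t => ?_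
    have e1 : A (ex A₁ t x) = ex A₁ t (A x) := DFunLike.congr_fun (ex_comm c1 t).eq x
    have e2 : ∀ y, B (ex B₁ (-t) y) = ex B₁ (-t) (B y) :=
      fun y => DFunLike.congr_fun (ex_comm c2 (-t)).eq y
    simp [e1, e2]
  refine ⟨continuousLinearMapOfTendsto
    (fun t : ℝ => ex B₁ (-t) * ex A₁ t * (acSub E).starProjection) (f := w)
    (tendsto_pi_nhds.2 hw), fun x hx => ⟨hw' x hx, ?_, ?_, ?_⟩⟩
  · refine tendsto_nhds_unique (hw' x hx).norm ?_
    simp only [ex_norm hB₁, ex_norm hA₁]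
    exact tendsto_const_nhds
  · exact int (.refl _) (.refl _) k₁ (fun S hS => h.comm h₁ hS) x hx
  · exact int hA.symm hB.symm k₂ (fun S hS => h.comm h₂ hS) x hx

end Pool.Agent.Work.MP_707689_an
end

-- merged part: Pool.Agent.Work.MP_707689_an.Hy.Calc
section
/-! The joint continuous functional calculus. -/

open MeasureTheory Set Filter Topology Complex Metric
open scoped ENNReal NNReal InnerProductSpace ComplexConjugate Real ComplexStarModule

namespace Pool.Agent.Work.MP_707689_an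

variable {H : Type} [NormedAddCommGroup H] [InnerProductSpace ℂ H] [CompleteSpace H]

/-- a commuting selfadjoint pair -/
structure Pair (A₁ A₂ : H →L[ℂ] H) : Prop where
  s₁ : IsSelfAdjoint A₁
  s₂ : IsSelfAdjoint A₂
  c : Commute A₁ A₂

variable {A₁ A₂ B₁ B₂ : H →L[ℂ] H} {f g : ℝ × ℝ → ℂ}

theorem cont_lift (hf : Continuous f) : Continuous fun z : ℂ => f (z.re, z.im) := by fun_prop

theorem fc_mul (hf : Continuous f) (hg : Continuous g) :
    fc (fun y => f y * g y) A₁ A₂ = fc f A₁ A₂ * fc g A₁ A₂ :=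
  cfc_mul _ _ _ (cont_lift hf).continuousOn (cont_lift hg).continuousOn

theorem fc_add (hf : Continuous f) (hg : Continuous g) :
    fc (f + g) A₁ A₂ = fc f A₁ A₂ + fc g A₁ A₂ :=
  cfc_add _ _ _ (cont_lift hf).continuousOn (cont_lift hg).continuousOn

theorem fc_sub (hf : Continuous f) (hg : Continuous g) :
    fc (fun y => f y - g y) A₁ A₂ = fc f A₁ A₂ - fc g A₁ A₂ :=
  cfc_sub _ _ _ (cont_lift hf).continuousOn (cont_lift hg).continuousOn

theorem fc_smul (hf : Continuous f) (c : ℂ) : fc (c • f) A₁ A₂ = c • fc f A₁ A₂ :=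
  cfc_const_mul c _ _ (cont_lift hf).continuousOn

theorem fc_zero : fc 0 A₁ A₂ = 0 := cfc_const_zero ℂ _

theorem fc_star : fc (fun y => conj (f y)) A₁ A₂ = star (fc f A₁ A₂) := cfc_star _ _

theorem fc_near (A₁ A₂ : H →L[ℂ] H) : ∃ R : ℝ, ∀ f : ℝ × ℝ → ℂ, ∀ c : ℝ, 0 ≤ c →
    (∀ y ∈ closedBall (0 : ℝ × ℝ) R, ‖f y‖ ≤ c) → ‖fc f A₁ A₂‖ ≤ c := by
  obtain ⟨R, hR⟩ := (spectrum.isBounded (𝕜 := ℂ) (A₁ + I • A₂)).subset_closedBall 0
  refine ⟨R, fun f c hc h => norm_cfc_le hc fun z hz => h _ ?_⟩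
  have h1 := mem_closedBall_zero_iff.1 (hR hz)
  rw [mem_closedBall_zero_iff, Prod.norm_mk]
  exact max_le ((abs_re_le_norm z).trans h1) ((abs_im_le_norm z).trans h1)

namespace Pair

theorem star_eq (h : Pair A₁ A₂) : star (A₁ + I • A₂) = A₁ - I • A₂ := by
  rw [star_add, star_smul, h.s₁.star_eq, h.s₂.star_eq, star_def, conj_I, neg_smul, sub_eq_add_neg]

theorem comm (h : Pair A₁ A₂) {T : H →L[ℂ] H} (c₁ : Commute A₁ T) (c₂ : Commute A₂ T)
    (f : ℝ × ℝ → ℂ) : Commute (fc f A₁ A₂) T :=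
  Commute.cfc (c₁.add_left (c₂.smul_left I)) (h.star_eq ▸ c₁.sub_left (c₂.smul_left I)) _

theorem normal (h : Pair A₁ A₂) : IsStarNormal (A₁ + I • A₂) :=
  ⟨h.star_eq ▸ ((Commute.refl A₁).add_right (h.c.smul_right I)).sub_left
    ((h.c.symm.add_right ((Commute.refl A₂).smul_right I)).smul_left I)⟩

theorem fc_ch (h : Pair A₁ A₂) (k : ℝ × ℝ) : fc (ch k) A₁ A₂ = ex A₁ k.1 * ex A₂ k.2 := by
  have := h.normal
  have e : ∀ (φ : ℂ → ℂ) (A : H →L[ℂ] H) (t : ℝ), Continuous φ → cfc φ (A₁ + I • A₂) = A →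
      cfc (fun z => cexp (I * t * φ z)) (A₁ + I • A₂) = ex A t := fun φ A t hφ hA => by
    rw [cfc_comp' cexp (fun z => I * t * φ z) _ continuous_exp.continuousOn
      (continuous_const.mul hφ).continuousOn, CFC.complex_exp_eq_normedSpace_exp
      (cfc_predicate _ _), cfc_const_mul _ _ _ hφ.continuousOn, hA, ex]
  rw [← e (fun z => (z.re : ℂ)) A₁ k.1 (by fun_prop) (by
      rw [cfc_re_id (A₁ + I • A₂) this]; simp [h.s₁.coe_realPart, h.s₂.imaginaryPart]),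
    ← e (fun z => (z.im : ℂ)) A₂ k.2 (by fun_prop) (by
      rw [cfc_im_id (A₁ + I • A₂) this]; simp [h.s₂.coe_realPart, h.s₁.imaginaryPart]),
    ← cfc_mul _ _ _ (by fun_prop) (by fun_prop), fc]
  congr 1
  funext z
  rw [ch, ← exp_add]
  congr 1
  push_cast
  ring

theorem unit (h : Pair A₁ A₂) (hf : Continuous f) (h1 : ∀ y, ‖f y‖ = 1) :
    star (fc f A₁ A₂) * fc f A₁ A₂ = 1 ∧ fc f A₁ A₂ * star (fc f A₁ A₂) = 1 := by
  have := h.normal
  have hc : Continuous fun y => conj (f y) := continuous_conj.comp hf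
  rw [← fc_star, ← fc_mul hc hf, ← fc_mul hf hc]
  simp only [conj_mul', mul_conj', h1, ofReal_one, one_pow]
  exact ⟨cfc_const_one ℂ _, cfc_const_one ℂ _⟩

end Pair

theorem norm_of_unit {U : H →L[ℂ] H} (h : star U * U = 1) (x : H) : ‖U x‖ = ‖x‖ := by
  rw [norm_eq_sqrt_re_inner (𝕜 := ℂ), ← ContinuousLinearMap.adjoint_inner_right,
    ← ContinuousLinearMap.star_eq_adjoint, ← mul_apply_eq_comp, h, one_apply_eq_self,
    ← norm_eq_sqrt_re_inner]

theorem le_of_unit {U : H →L[ℂ] H} (h : star U * U = 1) : ‖U‖ ≤ 1 :=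
  ContinuousLinearMap.opNorm_le_bound _ zero_le_one fun x => by rw [norm_of_unit h, one_mul]

/-- trigonometric polynomials -/
noncomputable def trig : Submodule ℂ (ℝ × ℝ → ℂ) := Submodule.span ℂ (range ch)

theorem trig_ind {P : (ℝ × ℝ → ℂ) → Prop} (h1 : ∀ k, P (ch k)) (h0 : P 0)
    (ha : ∀ f g, Continuous f → Continuous g → P f → P g → P (f + g))
    (hs : ∀ (c : ℂ) f, Continuous f → P f → P (c • f)) (hg : g ∈ trig) : Continuous g ∧ P g := by
  induction hg using Submodule.span_induction with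
  | mem f hf =>
    obtain ⟨k, rfl⟩ := hf
    exact ⟨ch_cont k, h1 k⟩
  | zero => exact ⟨continuous_zero, h0⟩
  | add f g _ _ hf hg => exact ⟨hf.1.add hg.1, ha f g hf.1 hg.1 hf.2 hg.2⟩
  | smul c f _ hf => exact ⟨hf.1.const_smul c, hs c f hf.1 hf.2⟩

theorem ch_mem (k : ℝ × ℝ) : ch k ∈ trig := Submodule.subset_span (mem_range_self k)

theorem trig_mul (hf : f ∈ trig) (hg : g ∈ trig) : f * g ∈ trig := by
  refine (trig_ind (P := fun f => f * g ∈ trig) (fun k => ?_) (by simp)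
    (fun _ _ _ _ h1 h2 => by rw [add_mul]; exact add_mem h1 h2)
    (fun c _ _ h => by rw [smul_mul_assoc]; exact Submodule.smul_mem _ c h) hf).2
  refine (trig_ind (P := fun g => ch k * g ∈ trig) (fun l => ?_) (by simp)
    (fun _ _ _ _ h1 h2 => by rw [mul_add]; exact add_mem h1 h2)
    (fun c _ _ h => by rw [mul_smul_comm]; exact Submodule.smul_mem _ c h) hg).2
  rw [show ch k * ch l = ch (k + l) from funext fun p => (ch_add k l p).symm]
  exact ch_mem _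

theorem trig_star (hf : f ∈ trig) : star f ∈ trig := by
  refine (trig_ind (P := fun f => star f ∈ trig) (fun k => ?_) (by simp)
    (fun _ _ _ _ h1 h2 => by rw [star_add]; exact add_mem h1 h2)
    (fun c _ _ h => by rw [star_smul]; exact Submodule.smul_mem _ _ h) hf).2
  rw [show star (ch k) = ch (-k) from funext fun p => (ch_neg k p).symm]
  exact ch_mem _

theorem trig_approx (hf : Continuous f) (R : ℝ) {ε : ℝ} (hε : 0 < ε) :
    ∃ g ∈ trig, ∀ y ∈ closedBall (0 : ℝ × ℝ) R, ‖f y - g y‖ ≤ ε := by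
  have : CompactSpace (closedBall (0 : ℝ × ℝ) R) :=
    isCompact_iff_compactSpace.1 (isCompact_closedBall _ _)
  have h1 : (1 : ℝ × ℝ → ℂ) ∈ trig := by
    rw [show (1 : ℝ × ℝ → ℂ) = ch 0 from funext fun p => by simp [ch]]
    exact ch_mem _
  let S : StarSubalgebra ℂ C(closedBall (0 : ℝ × ℝ) R, ℂ) :=
    { carrier := {F | ∃ g ∈ trig, ∀ y, F y = g y}
      mul_mem' := fun ⟨g, hg, e⟩ ⟨g', hg', e'⟩ => ⟨g * g', trig_mul hg hg', fun y => by
        simp [e, e']⟩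
      add_mem' := fun ⟨g, hg, e⟩ ⟨g', hg', e'⟩ => ⟨g + g', add_mem hg hg', fun y => by
        simp [e, e']⟩
      algebraMap_mem' := fun c => ⟨c • 1, Submodule.smul_mem _ c h1, fun y => by simp⟩
      star_mem' := fun ⟨g, hg, e⟩ => ⟨star g, trig_star hg, fun y => by simp [e]⟩ }
  have hS : S.SeparatesPoints := by
    intro x y hxy
    set d : ℝ × ℝ := x.1 - y.1 with hd
    have hd0 : d.1 ^ 2 + d.2 ^ 2 ≠ 0 := fun h => hxy (Subtype.ext (sub_eq_zero.1 (Prod.ext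
      (by nlinarith [sq_nonneg d.1, sq_nonneg d.2] : d.1 = 0)
      (by nlinarith [sq_nonneg d.1, sq_nonneg d.2] : d.2 = 0))))
    set k : ℝ × ℝ := (π / (d.1 ^ 2 + d.2 ^ 2)) • d with hk
    refine ⟨_, ⟨⟨fun y => ch k y.1, (ch_cont k).comp continuous_subtype_val⟩,
      ⟨ch k, ch_mem k, fun _ => rfl⟩, rfl⟩, fun h => ?_⟩
    have e : ch k x.1 = ch k y.1 * cexp (π * I) := by
      rw [ch, ch, ← exp_add]
      congr 1
      have e1 : k.1 * x.1.1 + k.2 * x.1.2 = k.1 * y.1.1 + k.2 * y.1.2 + π := by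
        have e2 : k.1 * d.1 + k.2 * d.2 = π := by
          simp only [hk, Prod.smul_fst, Prod.smul_snd, smul_eq_mul]
          field_simp
        rw [← e2, hd, Prod.fst_sub, Prod.snd_sub]
        ring
      rw [e1]
      push_cast
      ring
    have h2 : ch k x.1 = ch k y.1 := h
    have h3 := ch_norm k y.1
    rw [exp_pi_mul_I, h2] at e
    rw [show ch k y.1 = 0 by linear_combination e / 2, norm_zero] at h3
    exact zero_ne_one h3
  have h2 : (⟨fun y => f y.1, hf.comp continuous_subtype_val⟩ :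
      C(closedBall (0 : ℝ × ℝ) R, ℂ)) ∈ S.topologicalClosure := by
    rw [ContinuousMap.starSubalgebra_topologicalClosure_eq_top_of_separatesPoints S hS]
    trivial
  obtain ⟨F, ⟨g, hg, e⟩, hF⟩ := Metric.mem_closure_iff.1 h2 ε hε
  refine ⟨g, hg, fun y hy => ?_⟩
  rw [← e ⟨y, hy⟩, ← dist_eq_norm]
  exact (ContinuousMap.dist_apply_le_dist (⟨y, hy⟩ : closedBall (0 : ℝ × ℝ) R)).trans hF.le

theorem fc_cpt (hA : Pair A₁ A₂) (hB : Pair B₁ B₂) (k₁ : A₁ - B₁ ∈ cpt H) (k₂ : A₂ - B₂ ∈ cpt H)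
    (hf : Continuous f) : fc f A₁ A₂ - fc f B₁ B₂ ∈ cpt H := by
  obtain ⟨R, hR⟩ := fc_near A₁ A₂
  obtain ⟨R', hR'⟩ := fc_near B₁ B₂
  refine cpt_closed.closure_subset (Metric.mem_closure_iff.2 fun ε hε => ?_)
  obtain ⟨g, hg, h⟩ := trig_approx hf (max R R') (ε := ε / 3) (by positivity)
  obtain ⟨cg, h1⟩ := trig_ind (P := fun g => fc g A₁ A₂ - fc g B₁ B₂ ∈ cpt H)
    (fun k => by rw [hA.fc_ch, hB.fc_ch]; exact cpt_mul (cpt_ex k₁ _) (cpt_ex k₂ _))
    (by simp [fc_zero]) (fun _ _ c1 c2 h1 h2 => by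
      rw [fc_add c1 c2, fc_add c1 c2, add_sub_add_comm]; exact add_mem h1 h2)
    (fun c _ c1 h => by
      rw [fc_smul c1, fc_smul c1, ← smul_sub]; exact Submodule.smul_mem _ c h) hg
  refine ⟨_, h1, ?_⟩
  have h2 := hR _ _ (by positivity) fun y hy => h y (closedBall_subset_closedBall
    (le_max_left _ _) hy)
  have h3 := hR' _ _ (by positivity) fun y hy => h y (closedBall_subset_closedBall
    (le_max_right _ _) hy)
  rw [fc_sub hf cg] at h2 h3
  rw [dist_eq_norm, sub_sub_sub_comm]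
  linarith [norm_sub_le (fc f A₁ A₂ - fc g A₁ A₂) (fc f B₁ B₂ - fc g B₁ B₂)]

variable {E : Set (ℝ × ℝ) → H →L[ℂ] H} {μ : H → Measure (ℝ × ℝ)}

theorem PV.supp (h : PV E μ) {φ : ℝ × ℝ → ℝ} {A : H →L[ℂ] H} (hA : Intg μ φ A)
    (hφ : Measurable φ) (x : H) : ∀ᵐ p ∂μ x, |φ p| ≤ ‖A‖ := by
  have k : ∀ {φ : ℝ × ℝ → ℝ} {A : H →L[ℂ] H}, Intg μ φ A → Measurable φ →
      ∀ᵐ p ∂μ x, φ p ≤ ‖A‖ := fun {φ A} hA hφ => by
    have mS : MeasurableSet {p | ‖A‖ < φ p} := measurableSet_lt measurable_const hφ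
    have := h.fin x
    obtain ⟨h1, h2⟩ := hA (E {p | ‖A‖ < φ p} x)
    have h3 := (norm_inner_le_norm (𝕜 := ℂ) _ _).trans (mul_le_mul_of_nonneg_left
      (A.le_opNorm (E {p | ‖A‖ < φ p} x)) (norm_nonneg (E {p | ‖A‖ < φ p} x)))
    rw [h2, norm_real, mul_left_comm, ← pow_two, ← h.real x mS] at h3
    rw [h.restrict mS] at h1 h3
    have h4 : ∫ p in {p | ‖A‖ < φ p}, (φ p - ‖A‖) ∂μ x ≤ 0 := by
      rw [integral_sub h1 (integrable_const _), setIntegral_const, smul_eq_mul, mul_comm]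
      exact sub_nonpos.2 ((le_abs_self _).trans h3)
    have h5 : 0 ≤ᵐ[(μ x).restrict {p | ‖A‖ < φ p}] fun p => φ p - ‖A‖ :=
      (ae_restrict_iff' mS).2 (.of_forall fun p hp => sub_nonneg.2 (le_of_lt hp))
    have h6 := (integral_eq_zero_iff_of_nonneg_ae h5 (h1.sub (integrable_const _))).1
      (le_antisymm h4 (integral_nonneg_of_ae h5))
    filter_upwards [(ae_restrict_iff' mS).1 h6] with p hp
    by_contra hlt
    exact (sub_pos.2 (not_le.1 hlt)).ne' (hp (not_le.1 hlt))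
  have h2 : Intg μ (fun p => -φ p) (-A) := fun y =>
    ⟨(hA y).1.neg, by rw [neg_apply, inner_neg_right, (hA y).2, integral_neg, ofReal_neg]⟩
  filter_upwards [k hA hφ, k h2 hφ.neg] with p h3 h4
  rw [norm_neg] at h4
  exact abs_le.2 ⟨neg_le.1 h4, h3⟩

theorem PV.fc_int (h : PV E μ) (h₁ : Intg μ Prod.fst A₁) (h₂ : Intg μ Prod.snd A₂)
    (hA : Pair A₁ A₂) (hf : Continuous f) (x : H) : ⟪x, fc f A₁ A₂ x⟫_ℂ = ∫ p, f p ∂μ x := by
  have := h.fin x
  obtain ⟨R₀, hR⟩ := fc_near A₁ A₂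
  set R := max R₀ (max ‖A₁‖ ‖A₂‖) with hRd
  have hs : ∀ᵐ p ∂μ x, p ∈ closedBall (0 : ℝ × ℝ) R := by
    filter_upwards [h.supp h₁ measurable_fst x, h.supp h₂ measurable_snd x] with p h3 h4
    rw [mem_closedBall_zero_iff, Prod.norm_def]
    exact (max_le_max h3 h4).trans (le_max_right _ _)
  have int : ∀ {g : ℝ × ℝ → ℂ}, Continuous g → Integrable g (μ x) := fun {g} hg => by
    obtain ⟨C, hC⟩ := (isCompact_closedBall (0 : ℝ × ℝ) R).exists_bound_of_continuousOn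
      hg.continuousOn
    exact .of_bound hg.aestronglyMeasurable C (hs.mono hC)
  refine eq_of_forall_dist_le fun ε hε => ?_
  obtain ⟨g, hg, h3⟩ := trig_approx hf R (ε := ε / (2 * (‖x‖ ^ 2 + 1))) (by positivity)
  obtain ⟨cg, h1⟩ := trig_ind (P := fun g => ⟪x, fc g A₁ A₂ x⟫_ℂ = ∫ p, g p ∂μ x)
    (fun k => by rw [hA.fc_ch]; exact h.fourier h₁ h₂ hA.s₁ hA.s₂ x k)
    (by simp [fc_zero]) (fun _ _ c1 c2 h1 h2 => by
      rw [fc_add c1 c2, add_apply, inner_add_right, h1, h2, ← integral_add (int c1) (int c2)]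
      rfl)
    (fun c _ c1 h => by
      rw [fc_smul c1, smul_apply, inner_smul_right, h, ← integral_const_mul]
      rfl) hg
  have h4 := hR _ _ (by positivity) fun y hy => h3 y (closedBall_subset_closedBall
    (le_max_left _ _) hy)
  rw [fc_sub hf cg] at h4
  have h5 := (norm_inner_le_norm (𝕜 := ℂ) x _).trans (mul_le_mul_of_nonneg_left
    ((fc f A₁ A₂ - fc g A₁ A₂).le_of_opNorm_le h4 x) (norm_nonneg x))
  have h6 := norm_integral_le_of_norm_le_const (hs.mono h3)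
  rw [integral_sub (int hf) (int cg), h.real x MeasurableSet.univ, h.univ, one_apply_eq_self,
    norm_sub_rev] at h6
  rw [sub_apply, inner_sub_right, h1, mul_left_comm, ← pow_two] at h5
  have h7 : ε / (2 * (‖x‖ ^ 2 + 1)) * ‖x‖ ^ 2 ≤ ε / 2 := by
    rw [div_mul_eq_mul_div, div_le_div_iff₀ (by positivity) two_pos]
    nlinarith [sq_nonneg ‖x‖]
  rw [dist_eq_norm]
  linarith [norm_sub_le_norm_sub_add_norm_sub ⟪x, fc f A₁ A₂ x⟫_ℂ (∫ p, g p ∂μ x) (∫ p, f p ∂μ x)]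

end Pool.Agent.Work.MP_707689_an
end

-- merged part: Pool.Agent.Work.MP_707689_an.Hy.Main
section
/-! The hybrid wave operator. -/

open MeasureTheory Set Filter Topology Complex
open scoped ENNReal NNReal InnerProductSpace ComplexConjugate

namespace Pool.Agent.Work.MP_707689_an

variable {H : Type} [NormedAddCommGroup H] [InnerProductSpace ℂ H] [CompleteSpace H]

/-- continuous unimodular families that tend to zero against absolutely continuous measures -/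
structure Fam {ι : Type} (l : Filter ι) (f : ι → ℝ × ℝ → ℂ) : Prop where
  cont : ∀ i, Continuous (f i)
  one : ∀ i y, ‖f i y‖ = 1
  null : ∀ (ν : Measure (ℝ × ℝ)) [IsFiniteMeasure ν], ν ≪ volume →
    Tendsto (fun i => ∫ y, f i y ∂ν) l (𝓝 0)

/-- a commuting selfadjoint pair with its spectral measures -/
structure Sp (A₁ A₂ : H →L[ℂ] H) (E : Set (ℝ × ℝ) → H →L[ℂ] H) (μ : H → Measure (ℝ × ℝ)) :
    Prop where
  pair : Pair A₁ A₂
  pv : PV E μ
  i₁ : Intg μ Prod.fst A₁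
  i₂ : Intg μ Prod.snd A₂

variable {A₁ A₂ B₁ B₂ : H →L[ℂ] H} {E : Set (ℝ × ℝ) → H →L[ℂ] H} {μ : H → Measure (ℝ × ℝ)}
  {ι κ : Type} {l : Filter ι} {l' : Filter κ} {f : ι → ℝ × ℝ → ℂ} {g : κ → ℝ × ℝ → ℂ} {a : ℝ}

theorem IsJointSpec.sp (hE : IsJointSpec A₁ A₂ E) (h : Pair A₁ A₂) : ∃ μ, Sp A₁ A₂ E μ := by
  choose μ m1 m2 m3 m4 m5 using hE.int
  exact ⟨μ, h, ⟨hE.sa, hE.inter, hE.univ, m1⟩, fun x => ⟨m2 x, m4 x⟩, fun x => ⟨m3 x, m5 x⟩⟩

theorem fam_ch : Fam atTop fun t : ℝ => ch (t, 0) :=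
  ⟨fun _ => ch_cont _, fun _ _ => ch_norm _ _, fun _ _ h => riemann h⟩

theorem Sp.fc_ac (h : Sp A₁ A₂ E μ) (φ : ℝ × ℝ → ℂ) {x : H} (hx : x ∈ acSub E) :
    fc φ A₁ A₂ x ∈ acSub E :=
  acSub_map (fun _ hS => (h.pair.comm (h.pv.comm h.i₁ hS).symm (h.pv.comm h.i₂ hS).symm φ).symm) hx

theorem Sp.null (h : Sp A₁ A₂ E μ) (hf : Fam l f) {x : H} (hx : x ∈ acSub E) (y : H) :
    Tendsto (fun i => ⟪y, fc (f i) A₁ A₂ x⟫_ℂ) l (𝓝 0) := by
  have d : ∀ z ∈ acSub E, Tendsto (fun i => ⟪fc (f i) A₁ A₂ z, z⟫_ℂ) l (𝓝 0) := fun z hz => by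
    have := h.pv.fin z
    rw [tendsto_zero_iff_norm_tendsto_zero]
    refine (tendsto_zero_iff_norm_tendsto_zero.1 (hf.null _ (h.pv.ac hz))).congr fun i => ?_
    rw [← h.pv.fc_int h.i₁ h.i₂ h.pair (hf.cont i), norm_inner_symm]
  have hy := (acSub E).starProjection_apply_mem y
  have t := ((((d _ (add_mem hy hx)).sub (d _ (sub_mem hy hx))).add
    ((d _ (add_mem hy (Submodule.smul_mem _ I hx))).const_mul I)).sub
    ((d _ (sub_mem hy (Submodule.smul_mem _ I hx))).const_mul I)).div_const 4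
  simp only [mul_zero, sub_zero, add_zero, zero_div] at t
  rw [tendsto_zero_iff_norm_tendsto_zero] at t ⊢
  refine t.congr fun i => ?_
  have e := inner_map_polarization (fc (f i) A₁ A₂ : H →ₗ[ℂ] H) ((acSub E).starProjection y) x
  simp only [ContinuousLinearMap.coe_coe] at e
  rw [← e, ← Submodule.inner_starProjection_left_eq_right, Submodule.starProjection_eq_self_iff.2
    (h.fc_ac _ hx), norm_inner_symm]

theorem fc_ch_add (k k' : ℝ × ℝ) :
    fc (ch (k + k')) A₁ A₂ = fc (ch k) A₁ A₂ * fc (ch k') A₁ A₂ := by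
  rw [← fc_mul (ch_cont k) (ch_cont k'), funext (ch_add k k')]

theorem fc_comm (φ ψ : ℝ × ℝ → ℂ) : Commute (fc φ A₁ A₂) (fc ψ A₁ A₂) := cfc_commute_cfc _ _ _

theorem ch_star (k : ℝ × ℝ) : star (fc (ch k) A₁ A₂) = fc (ch (-k)) A₁ A₂ := by
  rw [← fc_star, funext (ch_neg k)]

theorem star_inner (T : H →L[ℂ] H) (x y : H) : ⟪star T x, y⟫_ℂ = ⟪x, T y⟫_ℂ :=
  ContinuousLinearMap.adjoint_inner_left T y x

theorem Sp.frame (h : Sp A₁ A₂ E μ) {x : H} (hx : x ∈ acSub E) {ε : ℝ} (hε : 0 < ε) :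
    ∃ ξ ∈ acSub E, ∃ M : ℝ≥0, ‖x - ξ‖ ≤ ε ∧ Frame M fun k => fc (ch k) A₁ A₂ ξ := by
  have := h.pv.fin x
  have hi : ∀ k (x y : H), ⟪fc (ch k) A₁ A₂ x, y⟫_ℂ = ⟪x, fc (ch (-k)) A₁ A₂ y⟫_ℂ :=
    fun k x y => by rw [← star_inner, ch_star, neg_neg]
  obtain ⟨ξ, M, h1, h2⟩ := exists_frame (E := fun k => fc (ch k) A₁ A₂)
    (by simp [h.pair.fc_ch, ex_zero]) fc_ch_add hi
    (by simp only [h.pair.fc_ch]
        exact (ex_cont.comp continuous_fst).mul (ex_cont.comp continuous_snd))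
    (fun k => norm_of_unit (h.pair.unit (ch_cont k) (ch_norm k)).1) x (h.pv.ac hx)
    (fun k => h.pv.fc_int h.i₁ h.i₂ h.pair (ch_cont k) x) hε
  refine ⟨(acSub E).starProjection ξ, (acSub E).starProjection_apply_mem ξ, M, ?_, ?_⟩
  · rw [← Submodule.starProjection_eq_self_iff.2 hx, ← map_sub]
    exact ((acSub E).norm_starProjection_apply_le _).trans h1
  · have e : ∀ k, (acSub E).starProjection (fc (ch k) A₁ A₂ ξ) =
        fc (ch k) A₁ A₂ ((acSub E).starProjection ξ) := fun k => by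
      refine Submodule.eq_starProjection_of_mem_orthogonal
        (h.fc_ac _ ((acSub E).starProjection_apply_mem ξ)) fun w hw => ?_
      rw [← map_sub, ← star_inner, ← fc_star]
      exact (acSub E).sub_starProjection_mem_orthogonal ξ _ (h.fc_ac _ hw)
    simpa only [e] using h2.map (acSub E).starProjection_norm_le

/-- the approximate wave operator -/
noncomputable def aw (φ : ℝ × ℝ → ℂ) (A₁ A₂ B₁ B₂ : H →L[ℂ] H) : H →L[ℂ] H :=
  star (fc φ B₁ B₂) * fc φ A₁ A₂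

theorem aw_unit (hA : Pair A₁ A₂) (hB : Pair B₁ B₂) {φ : ℝ × ℝ → ℂ} (hc : Continuous φ)
    (h1 : ∀ y, ‖φ y‖ = 1) : aw φ B₁ B₂ A₁ A₂ * aw φ A₁ A₂ B₁ B₂ = 1 := by
  rw [aw, aw, mul_assoc, ← mul_assoc (fc φ B₁ B₂), (hB.unit hc h1).2, one_mul, (hA.unit hc h1).1]

theorem aw_star (φ : ℝ × ℝ → ℂ) : star (aw φ A₁ A₂ B₁ B₂) = aw φ B₁ B₂ A₁ A₂ := by
  rw [aw, aw, star_mul, star_star]

theorem aw_norm (hA : Pair A₁ A₂) (hB : Pair B₁ B₂) {φ : ℝ × ℝ → ℂ} (hc : Continuous φ)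
    (h1 : ∀ y, ‖φ y‖ = 1) (x : H) : ‖aw φ A₁ A₂ B₁ B₂ x‖ = ‖x‖ :=
  norm_of_unit (by rw [aw_star, aw_unit hA hB hc h1]) x

theorem cauchy' [l.IsCountablyGenerated] [l'.IsCountablyGenerated] (ha : 0 < a) (ha1 : a < 1)
    (h : Sp A₁ A₂ E μ) (hB : Pair B₁ B₂) (k₁ : Apy a a (A₁ - B₁)) (k₂ : Apy a (1 - a) (A₂ - B₂))
    (hf : Fam l f) (hg : Fam l' g) {x : H} (hx : x ∈ acSub E) {ε : ℝ} (hε : 0 < ε) :
    ∀ᶠ z in l ×ˢ l', ‖aw (f z.1) A₁ A₂ B₁ B₂ x - aw (g z.2) A₁ A₂ B₁ B₂ x‖ ≤ ε := by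
  obtain ⟨ξ, hξ, M, h1, hv⟩ := h.frame hx (ε := ε / 3) (by positivity)
  have hA := h.pair
  have hb : 0 < 1 - a := sub_pos.2 ha1
  have hb1 : 1 - a < 1 := sub_lt_self _ ha
  have h0 : 0 < ENNReal.ofReal ((ε / 3) ^ 2 / 8) := ENNReal.ofReal_pos.mpr (by positivity)
  have fr : ∀ {φ : ℝ × ℝ → ℂ}, Continuous φ → (∀ y, ‖φ y‖ = 1) →
      Frame M fun k => fc φ A₁ A₂ (fc (ch k) A₁ A₂ ξ) := fun hc h1 =>
    hv.map (le_of_unit (hA.unit hc h1).1)
  have fl : ∀ φ : ℝ × ℝ → ℂ, Flow a A₁ A₂ fun k => fc φ A₁ A₂ (fc (ch k) A₁ A₂ ξ) := fun φ => by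
    have e : ∀ k, fc φ A₁ A₂ (fc (ch k) A₁ A₂ ξ) = (ex A₁ k.1 * ex A₂ k.2) (fc φ A₁ A₂ ξ) :=
      fun k => by
        rw [← hA.fc_ch]
        exact DFunLike.congr_fun (fc_comm φ (ch k)).eq ξ
    simpa only [e] using flow_ex hA.c (fc φ A₁ A₂ ξ)
  have nf := fun y k => h.null hf (h.fc_ac (ch k) hξ) y
  have ng := fun y k => h.null hg (h.fc_ac (ch k) hξ) y
  have ff := fun i => fr (hf.cont i) (hf.one i)
  have fg := fun j => fr (hg.cont j) (hg.one j)
  filter_upwards [((k₁.small ha ha1 ff nf h0).and (k₂.small hb hb1 ff nf h0)).prod_mk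
    ((k₁.small ha ha1 fg ng h0).and (k₂.small hb hb1 fg ng h0))] with z hz
  obtain ⟨⟨s1, s2⟩, s3, s4⟩ := hz
  have cf := hf.cont z.1
  have cg := hg.cont z.2
  have uf := hB.unit cf (hf.one z.1)
  have ug := hB.unit cg (hg.one z.2)
  set U := fc (g z.2) B₁ B₂ * star (fc (f z.1) B₁ B₂) with hU
  have hU1 : ‖U‖ ≤ 1 := le_of_unit (by
    rw [hU, star_mul, star_star, mul_assoc, ← mul_assoc (star _), ug.1, one_mul, uf.2])
  have cU : ∀ {T}, Commute B₁ T → Commute B₂ T → Commute T U := fun c₁ c₂ => by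
    rw [hU, ← fc_star]
    exact (hB.comm c₁ c₂ _).symm.mul_right (hB.comm c₁ c₂ _).symm
  have f1 := (fg z.2).map (U := ContinuousLinearMap.adjoint U) (by simpa using hU1)
  have f2 := (ff z.1).map hU1
  have h2 := (key' ha ha1 hA.s₁ hA.s₂ (cU (.refl _) hB.c.symm) (cU hB.c (.refl _))
    (V := fc (g z.2) A₁ A₂ * star (fc (f z.1) A₁ A₂)) (cpt_apx (by
      rw [hU, ← neg_sub, ← fc_star, ← fc_star]
      exact neg_mem (cpt_mul (fc_cpt hA hB k₁.cpt k₂.cpt cg)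
        (fc_cpt hA hB k₁.cpt k₂.cpt (continuous_conj.comp cf)))))
    (ff z.1) (fg z.2) (fl _) (fl _) (c₀ := ⟪ξ, ξ⟫_ℂ) (fun k => by
      rw [mul_apply_eq_comp, ← mul_apply_eq_comp (star _), (hA.unit cf (hf.one z.1)).1,
        one_apply_eq_self, inner_self_eq_norm_sq_to_K, inner_self_eq_norm_sq_to_K,
        norm_of_unit (hA.unit cg (hg.one z.2)).1,
        norm_of_unit (hA.unit (ch_cont k) (ch_norm k)).1])).trans
    (add_le_add (add_le_add (s1 _ f1).1 (s3 _ f2).2) (add_le_add (s2 _ f1).1 (s4 _ f2).2))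
  rw [← ENNReal.ofReal_add (by positivity) (by positivity),
    ← ENNReal.ofReal_add (by positivity) (by positivity), ← ofReal_norm,
    ENNReal.ofReal_le_ofReal_iff (by positivity), hA.fc_ch, Prod.fst_zero, Prod.snd_zero, ex_zero,
    ex_zero, mul_one, one_apply_eq_self, hU, mul_apply_eq_comp, ← star_inner] at h2
  have nf1 := aw_norm hA hB cf (hf.one z.1)
  have ng1 := aw_norm hA hB cg (hg.one z.2)
  have h3 : ‖aw (f z.1) A₁ A₂ B₁ B₂ ξ - aw (g z.2) A₁ A₂ B₁ B₂ ξ‖ ≤ ε / 3 := by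
    refine le_of_sq_le_sq ?_ (by positivity)
    rw [norm_sub_rev, norm_sub_sq (𝕜 := ℂ), nf1, ng1]
    have h4 := (abs_le.mp ((RCLike.abs_re_le_norm (K := ℂ) _).trans h2)).1
    rw [map_sub, inner_self_eq_norm_sq] at h4
    simp only [aw, mul_apply_eq_comp]
    linarith
  have h5 := dist_triangle4 (aw (f z.1) A₁ A₂ B₁ B₂ x) (aw (f z.1) A₁ A₂ B₁ B₂ ξ)
    (aw (g z.2) A₁ A₂ B₁ B₂ ξ) (aw (g z.2) A₁ A₂ B₁ B₂ x)
  rw [dist_comm (aw (g z.2) A₁ A₂ B₁ B₂ ξ)] at h5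
  simp only [dist_eq_norm, ← map_sub, nf1, ng1] at h5
  linarith

theorem wave0 (ha : 0 < a) (ha1 : a < 1) (h : Sp A₁ A₂ E μ) (hB : Pair B₁ B₂)
    (k₁ : Apy a a (A₁ - B₁)) (k₂ : Apy a (1 - a) (A₂ - B₂)) : ∃ W : H →L[ℂ] H,
      (∀ (ι : Type) (l : Filter ι) [l.IsCountablyGenerated] (f : ι → ℝ × ℝ → ℂ), Fam l f →
        ∀ x ∈ acSub E, Tendsto (fun i => aw (f i) A₁ A₂ B₁ B₂ x) l (𝓝 (W x))) ∧
      (∀ x ∈ acSub E, ‖W x‖ = ‖x‖ ∧ W (A₁ x) = B₁ (W x) ∧ W (A₂ x) = B₂ (W x)) ∧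
      ∀ E' μ', Sp B₁ B₂ E' μ' → ∀ x ∈ acSub E, W x ∈ acSub E' := by
  have hA := h.pair
  have ex1 : ∀ x : H, ∃ y, Tendsto
      (fun t : ℝ => aw (ch (t, 0)) A₁ A₂ B₁ B₂ ((acSub E).starProjection x)) atTop (𝓝 y) :=
    fun x => by
      rw [← cauchy_map_iff_exists_tendsto, cauchy_map_iff',
        Metric.uniformity_basis_dist_le.tendsto_right_iff]
      intro ε hε
      simpa only [mem_ofPred_eq, dist_eq_norm] using cauchy' ha ha1 h hB k₁ k₂ fam_ch fam_ch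
        ((acSub E).starProjection_apply_mem x) hε
  choose w hw using ex1
  have hw' : ∀ x ∈ acSub E, Tendsto (fun t : ℝ => aw (ch (t, 0)) A₁ A₂ B₁ B₂ x) atTop (𝓝 (w x)) :=
    fun x hx => by simpa only [Submodule.starProjection_eq_self_iff.2 hx] using hw x
  have int : ∀ {A B : H →L[ℂ] H}, (∀ φ, Commute (fc φ A₁ A₂) A) → (∀ φ, Commute (fc φ B₁ B₂) B) →
      A - B ∈ cpt H → ∀ x ∈ acSub E, A x ∈ acSub E → w (A x) = B (w x) := by
    intro A B c1 c2 hK x hx hAx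
    refine tendsto_nhds_unique (hw' _ hAx) ?_
    have t1 := cpt_strong hK (norm_nonneg x)
      (fun t : ℝ => norm_of_unit (hA.unit (ch_cont (t, 0)) (ch_norm _)).1 x) (h.null fam_ch hx)
    have t2 : Tendsto (fun t : ℝ => star (fc (ch (t, 0)) B₁ B₂)
        ((A - B) (fc (ch (t, 0)) A₁ A₂ x))) atTop (𝓝 0) := by
      rw [tendsto_zero_iff_norm_tendsto_zero] at t1 ⊢
      refine t1.congr fun t => (norm_of_unit ?_ _).symm
      rw [star_star, (hB.unit (ch_cont (t, 0)) (ch_norm _)).2]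
    have t3 := ((B.continuous.tendsto _).comp (hw' x hx)).add t2
    rw [add_zero] at t3
    refine t3.congr fun t => ?_
    have e1 : A (fc (ch (t, 0)) A₁ A₂ x) = fc (ch (t, 0)) A₁ A₂ (A x) :=
      DFunLike.congr_fun (c1 _).symm.eq x
    have e2 : ∀ y, B (star (fc (ch (t, 0)) B₁ B₂) y) = star (fc (ch (t, 0)) B₁ B₂) (B y) :=
      fun y => by
        rw [← fc_star]
        exact DFunLike.congr_fun (c2 _).symm.eq y
    simp [aw, e1, e2]
  have iso : ∀ x ∈ acSub E, ∀ y ∈ acSub E, ⟪w x, w y⟫_ℂ = ⟪x, y⟫_ℂ := fun x hx y hy => by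
    refine tendsto_nhds_unique ((hw' x hx).inner (hw' y hy)) (tendsto_const_nhds.congr fun t => ?_)
    rw [← star_star (aw _ A₁ A₂ B₁ B₂), star_inner, star_star, ← mul_apply_eq_comp, aw_star,
      aw_unit hA hB (ch_cont _) (ch_norm _), one_apply_eq_self]
  refine ⟨continuousLinearMapOfTendsto
    (fun t : ℝ => aw (ch (t, 0)) A₁ A₂ B₁ B₂ * (acSub E).starProjection) (f := w)
    (tendsto_pi_nhds.2 hw), fun ι l _ f hf x hx => ?_, fun x hx => ⟨?_, ?_, ?_⟩,
    fun E' μ' h' x hx => ?_⟩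
  · rw [Metric.nhds_basis_closedBall.tendsto_right_iff]
    intro ε hε
    filter_upwards [(cauchy' ha ha1 h hB k₁ k₂ hf fam_ch hx hε).curry] with i hi
    rw [Metric.mem_closedBall, dist_eq_norm]
    exact le_of_tendsto ((hw' x hx).const_sub _).norm hi
  · refine tendsto_nhds_unique (hw' x hx).norm ?_
    simp only [aw_norm hA hB (ch_cont _) (ch_norm _)]
    exact tendsto_const_nhds
  · exact int (hA.comm (.refl _) hA.c.symm) (hB.comm (.refl _) hB.c.symm) k₁.cpt x hx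
      (acSub_map (fun S hS => h.pv.comm h.i₁ hS) hx)
  · exact int (hA.comm hA.c (.refl _)) (hB.comm hB.c (.refl _)) k₂.cpt x hx
      (acSub_map (fun S hS => h.pv.comm h.i₂ hS) hx)
  · have := h.pv.fin x
    have := h'.pv.fin (w x)
    have e : μ' (w x) = μ x := Measure.ext_of_charFunDual (funext fun L => by
      have e1 : ∀ p : ℝ × ℝ, cexp (L p * I) = ch (L (1, 0), L (0, 1)) p := fun p => by
        have e2 : L p = L (1, 0) * p.1 + L (0, 1) * p.2 := by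
          rw [mul_comm, mul_comm (L (0, 1)), ← smul_eq_mul, ← smul_eq_mul, ← map_smul, ← map_smul,
            ← map_add]
          simp
        rw [ch, e2, mul_comm]
      simp only [charFunDual_apply, e1]
      rw [← h'.pv.fc_int h'.i₁ h'.i₂ hB (ch_cont _), ← h.pv.fc_int h.i₁ h.i₂ hA (ch_cont _),
        ← int (fun φ => fc_comm φ _) (fun φ => fc_comm φ _)
          (fc_cpt hA hB k₁.cpt k₂.cpt (ch_cont _)) x hx (h.fc_ac _ hx),
        iso x hx _ (h.fc_ac _ hx)])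
    intro S hS h0
    have h1 := h'.pv.app (w x) S hS
    rw [e, h.pv.ac hx h0] at h1
    change E' S (w x) = 0
    simpa using h1.symm

omit [CompleteSpace H] in
theorem Apy.neg {c : ℝ} {A B : H →L[ℂ] H} (h : Apy a c (A - B)) : Apy a c (B - A) := by
  intro ε hε
  obtain ⟨F, r, hF, h1, h2⟩ := h ε hε
  have e : B - A - -F = -(A - B - F) := by abel
  refine ⟨-F, r, by simpa using hF.left (-1), by rwa [e, enorm_neg], fun M v w hv hw => ?_⟩
  simpa only [e, neg_apply, inner_neg_right, enorm_neg] using h2 M v w hv hw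

theorem wave1 (hA : Pair A₁ A₂) (hB : Pair B₁ B₂) {p q : ℝ} (hp : 0 < p) (hq : 0 < q)
    (hpq : 1 ≤ 1 / p + 1 / q) (hK₁ : InLor p (A₁ - B₁)) (hK₂ : InLor q (A₂ - B₂))
    (hE : IsJointSpec A₁ A₂ E) : ∃ W : H →L[ℂ] H,
      (∀ (ι : Type) (l : Filter ι) [l.IsCountablyGenerated] (f : ι → ℝ × ℝ → ℂ), Fam l f →
        ∀ x, IsAC E x → Tendsto (fun i => aw (f i) A₁ A₂ B₁ B₂ x) l (𝓝 (W x))) ∧
      (∀ x, IsAC E x → ‖W x‖ = ‖x‖ ∧ W (A₁ x) = B₁ (W x) ∧ W (A₂ x) = B₂ (W x)) ∧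
      ∀ E', IsJointSpec B₁ B₂ E' → W '' {x | IsAC E x} = {y | IsAC E' y} := by
  have hp' := one_div_pos.2 hp
  have hq' := one_div_pos.2 hq
  have hs : 0 < 1 / p + 1 / q := add_pos hp' hq'
  set a := 1 / p / (1 / p + 1 / q) with hd
  have ha : 0 < a := div_pos hp' hs
  have ha1 : a < 1 := (div_lt_one hs).2 (lt_add_of_pos_right _ hq')
  have k₁ : Apy a a (A₁ - B₁) := hK₁.apy ha ha1 (div_le_self hp'.le hpq)
  have k₂ : Apy a (1 - a) (A₂ - B₂) := hK₂.apy (sub_pos.2 ha1) (sub_lt_self _ ha) (by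
    rw [hd, one_sub_div hs.ne', add_sub_cancel_left]
    exact div_le_self hq'.le hpq)
  obtain ⟨μ, h⟩ := hE.sp hA
  obtain ⟨W, h1, h2, h3⟩ := wave0 ha ha1 h hB k₁ k₂
  refine ⟨W, h1, h2, fun E' hE' => ?_⟩
  obtain ⟨μ', h'⟩ := hE'.sp hB
  obtain ⟨W', g1, -, g3⟩ := wave0 ha ha1 h' hA k₁.neg k₂.neg
  refine Subset.antisymm ?_ fun y hy => ⟨W' y, g3 E μ h y hy, ?_⟩
  · rintro _ ⟨x, hx, rfl⟩
    exact h3 E' μ' h' x hx
  · refine tendsto_nhds_unique (h1 _ _ _ fam_ch _ (g3 E μ h y hy)) ?_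
    have t := g1 _ _ _ fam_ch y hy
    rw [tendsto_iff_norm_sub_tendsto_zero] at t ⊢
    refine t.congr fun t => ?_
    rw [← aw_norm hA hB (ch_cont (t, 0)) (ch_norm _), map_sub, ← mul_apply_eq_comp,
      aw_unit hB hA (ch_cont _) (ch_norm _), one_apply_eq_self, norm_sub_rev]

end Pool.Agent.Work.MP_707689_an
end
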